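import Mathlib

set_option autoImplicit false

namespace Pool.Agent.H837Z.Diam

variable {X : Type*} [NormedAddCommGroup X] [NormedSpace ℝ X]

/-- norming functional for a far pair -/
theorem norming (a b : X) (ha : ‖a‖ ≤ 1) (hb : ‖b‖ ≤ 1) (δ : ℝ) (hδ : δ < 2)
    (h : 2 - δ < ‖a - b‖) :
    ∃ φ : X →L[ℝ] ℝ, (∀ z, φ z ≤ ‖z‖) ∧ 1 - δ < φ a ∧ 1 - δ < - φ b := by
  have hne : ‖a - b‖ ≠ 0 := by linarith [h]
  obtain ⟨φ, hφ1, hφ2⟩ := exists_dual_vector ℝ (a - b) hne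
  have hle : ∀ z, φ z ≤ ‖z‖ := by
    intro z
    have h1 := φ.le_opNorm z
    rw [hφ1, one_mul] at h1
    exact le_trans (le_abs_self _) h1
  have h2 : φ a - φ b = ‖a - b‖ := by
    rw [← map_sub]; simpa using hφ2
  have h3 : φ a ≤ 1 := le_trans (hle a) ha
  have h4 : - φ b ≤ 1 := by
    have := hle (-b)
    rw [map_neg, norm_neg] at this
    linarith
  exact ⟨φ, hle, by linarith, by linarith⟩

theorem step
    (hD : ∀ (f : X →L[ℝ] ℝ) (α : ℝ), 0 < α → ∀ x : X, ‖x‖ = 1 → ‖f‖ - α < f x →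
        ∀ ε : ℝ, 0 < ε → ∃ y : X, ‖y‖ ≤ 1 ∧ ‖f‖ - α < f y ∧ 2 - ε < ‖x - y‖)
    (x0 : X) (hx0 : ‖x0‖ = 1) (y : X) (hy : ‖y‖ ≤ 1) (t δ τ : ℝ) (ht0 : 0 < t) (ht1 : t < 1)
    (hδ : 0 < δ) (hδ1 : δ < 1) (hτ : 0 < τ) (hfar : 2 - δ < ‖x0 - y‖) (h : X →L[ℝ] ℝ) :
    ∃ y' : X, ‖y'‖ ≤ 1 ∧ h (y' - x0) ≤ τ + ‖h‖ * (δ + 2 * (1 - t)) ∧
      ∃ φ : X →L[ℝ] ℝ, (∀ z, φ z ≤ ‖z‖) ∧ t - 2 * δ ≤ t * φ x0 ∧
        (1 - t) - 2 * δ ≤ (1 - t) * (- φ y) ∧ 1 - δ ≤ - φ y' := by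
  obtain ⟨ψ, hψ, hψ1, hψ2⟩ := norming x0 y hx0.le hy δ (by linarith) hfar
  set w : X := t • x0 - (1 - t) • y with hw
  have hw1 : ‖w‖ ≤ 1 := by
    have h1 : ‖w‖ ≤ ‖t • x0‖ + ‖(1 - t) • y‖ := norm_sub_le _ _
    rw [norm_smul, norm_smul, Real.norm_of_nonneg ht0.le,
      Real.norm_of_nonneg (by linarith : (0 : ℝ) ≤ 1 - t), hx0] at h1
    nlinarith
  have hw2 : 1 - δ < ‖w‖ := by
    have h1 := hψ w
    have h2 : ψ w = t * ψ x0 + (1 - t) * (- ψ y) := by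
      rw [hw, map_sub, map_smul, map_smul, smul_eq_mul, smul_eq_mul]; ring
    nlinarith
  have hwpos : 0 < ‖w‖ := by linarith
  set x : X := (‖w‖⁻¹) • w with hx
  have hx1 : ‖x‖ = 1 := by
    rw [hx, norm_smul, norm_inv, norm_norm]; field_simp
  have hxw : ‖x - w‖ ≤ δ := by
    have h1 : x - w = (1 - ‖w‖) • x := by
      rw [sub_smul, one_smul, hx, smul_smul, mul_inv_cancel₀ hwpos.ne', one_smul]
    rw [h1, norm_smul, hx1, Real.norm_of_nonneg (by linarith)]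
    linarith
  have hwx0 : ‖w - x0‖ ≤ 2 * (1 - t) := by
    have h1 : w - x0 = (1 - t) • (-(x0 + y)) := by
      rw [hw]; module
    rw [h1, norm_smul, Real.norm_of_nonneg (by linarith : (0 : ℝ) ≤ 1 - t), norm_neg]
    have h2 : ‖x0 + y‖ ≤ 2 := by
      have := norm_add_le x0 y
      linarith
    nlinarith
  have hxx0 : ‖x - x0‖ ≤ δ + 2 * (1 - t) := by
    have : x - x0 = (x - w) + (w - x0) := by abel
    rw [this]
    linarith [norm_add_le (x - w) (w - x0)]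
  have hfx : (-h) x ≤ ‖-h‖ := by
    have h1 := (-h).le_opNorm x
    rw [hx1, mul_one] at h1
    exact le_trans (le_abs_self _) h1
  obtain ⟨y', hy'1, hy'2, hy'3⟩ := hD (-h) (‖-h‖ - (-h) x + τ) (by linarith) x hx1
    (by linarith) δ hδ
  obtain ⟨φ, hφ, hφ1, hφ2⟩ := norming x y' hx1.le hy'1 δ (by linarith) hy'3
  refine ⟨y', hy'1, ?_, φ, hφ, ?_, ?_, hφ2.le⟩
  · have h1 : h (y' - x0) = (h y' - h x) + h (x - x0) := by
      rw [map_sub, map_sub]; ring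
    have h2 : h y' - h x < τ := by
      simp only [ContinuousLinearMap.neg_apply] at hy'2
      linarith
    have h3 : h (x - x0) ≤ ‖h‖ * (δ + 2 * (1 - t)) := by
      have h4 := h.le_opNorm (x - x0)
      have h5 : ‖h‖ * ‖x - x0‖ ≤ ‖h‖ * (δ + 2 * (1 - t)) :=
        mul_le_mul_of_nonneg_left hxx0 (norm_nonneg _)
      exact le_trans (le_trans (le_abs_self _) h4) h5
    linarith
  · have h1 : φ w = t * φ x0 + (1 - t) * (- φ y) := by
      rw [hw, map_sub, map_smul, map_smul, smul_eq_mul, smul_eq_mul]; ring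
    have h2 : φ x - φ w ≤ δ := by
      rw [← map_sub]; exact le_trans (hφ _) hxw
    have h3 : - φ y ≤ 1 := by
      have := hφ (-y)
      rw [map_neg, norm_neg] at this
      linarith
    nlinarith
  · have h1 : φ w = t * φ x0 + (1 - t) * (- φ y) := by
      rw [hw, map_sub, map_smul, map_smul, smul_eq_mul, smul_eq_mul]; ring
    have h2 : φ x - φ w ≤ δ := by
      rw [← map_sub]; exact le_trans (hφ _) hxw
    have h3 : φ x0 ≤ 1 := le_trans (hφ _) hx0.le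
    nlinarith

theorem main_ind
    (hD : ∀ (f : X →L[ℝ] ℝ) (α : ℝ), 0 < α → ∀ x : X, ‖x‖ = 1 → ‖f‖ - α < f x →
        ∀ ε : ℝ, 0 < ε → ∃ y : X, ‖y‖ ≤ 1 ∧ ‖f‖ - α < f y ∧ 2 - ε < ‖x - y‖)
    {ι : Type*} [Fintype ι] (g : ι → (X →L[ℝ] ℝ)) (x0 : X) (hx0 : ‖x0‖ = 1) (n : ℕ) :
    ∀ ε : ℝ, 0 < ε → ∃ y : X, ‖y‖ ≤ 1 ∧ 2 - ε < ‖x0 - y‖ ∧
      ((n : ℝ) + 1) * ∑ j, (g j (y - x0)) ^ 2 ≤ 4 * ∑ j, ‖g j‖ ^ 2 + 1 := by
  have hb : ∀ (j : ι) (z : X), ‖z‖ ≤ 1 → |g j (z - x0)| ≤ 2 * ‖g j‖ := by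
    intro j z hz
    have h1 := (g j).le_opNorm (z - x0)
    have h2 : ‖z - x0‖ ≤ 2 := by
      have := norm_sub_le z x0
      linarith
    have h3 : ‖g j‖ * ‖z - x0‖ ≤ ‖g j‖ * 2 := mul_le_mul_of_nonneg_left h2 (norm_nonneg _)
    rw [Real.norm_eq_abs] at h1
    linarith
  have hV : ∀ z : X, ‖z‖ ≤ 1 → ∑ j, (g j (z - x0)) ^ 2 ≤ 4 * ∑ j, ‖g j‖ ^ 2 := by
    intro z hz
    rw [Finset.mul_sum]
    apply Finset.sum_le_sum
    intro j _
    have h1 := hb j z hz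
    have h2 : (g j (z - x0)) ^ 2 = |g j (z - x0)| ^ 2 := (sq_abs _).symm
    rw [h2]
    have h3 := abs_nonneg (g j (z - x0))
    nlinarith
  set S : ℝ := ∑ j, ‖g j‖ ^ 2 with hS
  have hS0 : 0 ≤ S := Finset.sum_nonneg (fun j _ => sq_nonneg _)
  induction n with
  | zero =>
    intro ε hε
    obtain ⟨y, hy1, -, hy3⟩ := hD 0 1 one_pos x0 hx0 (by simp) ε hε
    refine ⟨y, hy1, hy3, ?_⟩
    have := hV y hy1
    simp only [Nat.cast_zero, zero_add, one_mul]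
    linarith
  | succ n ih =>
    intro ε hε
    set m : ℝ := (n : ℝ) + 1 with hm
    have hm1 : 1 ≤ m := by
      have : (0 : ℝ) ≤ n := Nat.cast_nonneg n
      linarith
    have hmpos : 0 < m := by linarith
    -- s = 1 - t
    set K : ℝ := 2 * S + 1 with hK
    have hK1 : 1 ≤ K := by linarith
    set s : ℝ := 1 / (16 * m * K) with hs
    have hspos : 0 < s := by positivity
    have hsK : s * (16 * m * K) = 1 := by rw [hs]; field_simp
    have hs2 : s ≤ 1 / 16 := by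
      rw [hs]
      apply one_div_le_one_div_of_le (by norm_num)
      nlinarith
    set δ : ℝ := s * min ε 1 / 8 with hδ
    have hmin : 0 < min ε 1 := lt_min hε one_pos
    have hmin1 : min ε 1 ≤ 1 := min_le_right _ _
    have hminε : min ε 1 ≤ ε := min_le_left _ _
    have hδpos : 0 < δ := by positivity
    have hδs : δ ≤ s / 8 := by
      rw [hδ]; nlinarith
    have hδε : δ ≤ s * ε / 8 := by
      rw [hδ]; nlinarith
    obtain ⟨y, hy1, hy2, hy3⟩ := ih δ hδpos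
    set h : X →L[ℝ] ℝ := ∑ j, (g j (y - x0)) • g j with hh
    have hhn : ‖h‖ ≤ K := by
      have h1 : ‖h‖ ≤ ∑ j, ‖(g j (y - x0)) • g j‖ := norm_sum_le _ _
      have h2 : ∑ j, ‖(g j (y - x0)) • g j‖ ≤ ∑ j, 2 * ‖g j‖ ^ 2 := by
        apply Finset.sum_le_sum
        intro j _
        rw [norm_smul, Real.norm_eq_abs]
        have := hb j y hy1
        have h3 := norm_nonneg (g j)
        nlinarith
      rw [← Finset.mul_sum] at h2
      linarith
    obtain ⟨y', hy'1, hy'2, φ, hφ, hφ1, hφ2, hφ3⟩ := step hD x0 hx0 y hy1 (1 - s) δ (s * K)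
      (by linarith) (by linarith) hδpos (by linarith) (by positivity) hy2 h
    have hcross : 2 * m * h (y' - x0) ≤ 1 := by
      have h1 : ‖h‖ * (δ + 2 * (1 - (1 - s))) ≤ K * (3 * s) := by
        apply mul_le_mul hhn (by linarith) (by linarith) (by linarith)
      have h2 : h (y' - x0) ≤ 4 * (s * K) := by linarith
      have h3 : 2 * m * h (y' - x0) ≤ 2 * m * (4 * (s * K)) :=
        mul_le_mul_of_nonneg_left h2 (by positivity)
      nlinarith
    have hm2 : 0 < m + 1 := by linarith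
    refine ⟨(m / (m + 1)) • y + (1 / (m + 1)) • y', ?_, ?_, ?_⟩
    · have h1 := norm_add_le ((m / (m + 1)) • y) ((1 / (m + 1)) • y')
      rw [norm_smul, norm_smul, Real.norm_of_nonneg (by positivity),
        Real.norm_of_nonneg (by positivity)] at h1
      have h2 : m / (m + 1) * ‖y‖ ≤ m / (m + 1) :=
        mul_le_of_le_one_right (by positivity) hy1
      have h3 : 1 / (m + 1) * ‖y'‖ ≤ 1 / (m + 1) :=
        mul_le_of_le_one_right (by positivity) hy'1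
      have h4 : m / (m + 1) + 1 / (m + 1) = 1 := by field_simp
      linarith
    · have h1 := hφ (x0 - ((m / (m + 1)) • y + (1 / (m + 1)) • y'))
      have h2 : φ (x0 - ((m / (m + 1)) • y + (1 / (m + 1)) • y')) =
          φ x0 + (m / (m + 1)) * (- φ y) + (1 / (m + 1)) * (- φ y') := by
        rw [map_sub, map_add, map_smul, map_smul]; simp; ring
      have a1 : 1 - ε / 3 ≤ φ x0 := by
        have : (1 - s) * (1 - ε / 3) ≤ (1 - s) * φ x0 := by nlinarith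
        exact le_of_mul_le_mul_left this (by linarith)
      have a2 : 1 - ε / 3 ≤ - φ y := by
        have : s * (1 - ε / 3) ≤ s * (- φ y) := by
          have e : 1 - (1 - s) = s := by ring
          rw [e] at hφ2
          nlinarith
        exact le_of_mul_le_mul_left this hspos
      have a3 : 1 - ε / 3 ≤ - φ y' := by nlinarith
      have h3 : m / (m + 1) * (1 - ε / 3) ≤ m / (m + 1) * (- φ y) :=
        mul_le_mul_of_nonneg_left a2 (by positivity)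
      have h4 : 1 / (m + 1) * (1 - ε / 3) ≤ 1 / (m + 1) * (- φ y') :=
        mul_le_mul_of_nonneg_left a3 (by positivity)
      have h5 : m / (m + 1) * (1 - ε / 3) + 1 / (m + 1) * (1 - ε / 3) = 1 - ε / 3 := by
        field_simp
      linarith
    · have e1 : ∀ j, g j ((m / (m + 1)) • y + (1 / (m + 1)) • y' - x0) =
          (m * g j (y - x0) + g j (y' - x0)) / (m + 1) := by
        intro j
        simp only [map_sub, map_add, map_smul, smul_eq_mul]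
        field_simp
        ring
      have e2 : h (y' - x0) = ∑ j, g j (y - x0) * g j (y' - x0) := by
        rw [hh, ContinuousLinearMap.sum_apply]
        simp
      have e3 : (m + 1) ^ 2 * ∑ j, (g j ((m / (m + 1)) • y + (1 / (m + 1)) • y' - x0)) ^ 2 =
          m * (m * ∑ j, (g j (y - x0)) ^ 2) + 2 * m * h (y' - x0) +
            ∑ j, (g j (y' - x0)) ^ 2 := by
        rw [e2, Finset.mul_sum, Finset.mul_sum, Finset.mul_sum, Finset.mul_sum,
          ← Finset.sum_add_distrib, ← Finset.sum_add_distrib]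
        apply Finset.sum_congr rfl
        intro j _
        rw [e1 j]
        field_simp
        ring
      have h1 := hV y' hy'1
      have h2 : m * (m * ∑ j, (g j (y - x0)) ^ 2) ≤ m * (4 * S + 1) :=
        mul_le_mul_of_nonneg_left hy3 hmpos.le
      have h3 : (m + 1) * ((m + 1) *
          ∑ j, (g j ((m / (m + 1)) • y + (1 / (m + 1)) • y' - x0)) ^ 2) ≤
          (m + 1) * (4 * S + 1) := by nlinarith
      have h4 := le_of_mul_le_mul_left h3 hm2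
      have e4 : ((n + 1 : ℕ) : ℝ) + 1 = m + 1 := by rw [hm]; push_cast; ring
      rw [e4]
      exact h4

theorem dd2p_of_dld2p
    (hD : ∀ (f : X →L[ℝ] ℝ) (α : ℝ), 0 < α → ∀ x : X, ‖x‖ = 1 → ‖f‖ - α < f x →
        ∀ ε : ℝ, 0 < ε → ∃ y : X, ‖y‖ ≤ 1 ∧ ‖f‖ - α < f y ∧ 2 - ε < ‖x - y‖)
    {ι : Type*} [Fintype ι] (g : ι → (X →L[ℝ] ℝ)) (δ : ℝ) (hδ : 0 < δ) (x : X) (hx : ‖x‖ = 1)
    (ε : ℝ) (hε : 0 < ε) :
    ∃ y : X, ‖y‖ ≤ 1 ∧ (∀ i, |g i (y - x)| < δ) ∧ 2 - ε < ‖x - y‖ := by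
  obtain ⟨n, hn⟩ := exists_nat_gt ((4 * ∑ j, ‖g j‖ ^ 2 + 1) / δ ^ 2)
  obtain ⟨y, hy1, hy2, hy3⟩ := main_ind hD g x hx n ε hε
  refine ⟨y, hy1, fun i => ?_, hy2⟩
  have h1 : (g i (y - x)) ^ 2 ≤ ∑ j, (g j (y - x)) ^ 2 :=
    Finset.single_le_sum (f := fun j => (g j (y - x)) ^ 2) (fun j _ => sq_nonneg _)
      (Finset.mem_univ i)
  have h2 : 4 * ∑ j, ‖g j‖ ^ 2 + 1 < n * δ ^ 2 := by
    rwa [div_lt_iff₀ (by positivity)] at hn
  have h3 : (g i (y - x)) ^ 2 < δ ^ 2 := by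
    by_contra hc
    push Not at hc
    have h0 : (0 : ℝ) ≤ n := Nat.cast_nonneg n
    have h4 : ((n : ℝ) + 1) * δ ^ 2 ≤ ((n : ℝ) + 1) * ∑ j, (g j (y - x)) ^ 2 :=
      mul_le_mul_of_nonneg_left (le_trans hc h1) (by linarith)
    nlinarith [sq_nonneg δ]
  exact abs_lt_of_sq_lt_sq h3 hδ.le

end Pool.Agent.H837Z.Diam
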