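import Mathlib
import Pool.Agent.H837Z.Diam

set_option autoImplicit false

namespace Pool.Agent.H837Z.Diam2

open Pool.Agent.H837Z.Diam

variable {E F : Type*} [NormedAddCommGroup E] [NormedSpace ℝ E]
  [NormedAddCommGroup F] [NormedSpace ℝ F]

/-- slice form for a pairing -/
def DLD (B : E →ₗ[ℝ] F →ₗ[ℝ] ℝ) : Prop :=
  ∀ e : E, ‖e‖ = 1 → ∀ (f : F) (τ ε : ℝ), 0 < τ → 0 < ε →
    ∃ y : E, ‖y‖ ≤ 1 ∧ B e f - τ < B y f ∧ 2 - ε < ‖e - y‖

/-- weakly open form for a pairing -/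
def DD (B : E →ₗ[ℝ] F →ₗ[ℝ] ℝ) : Prop :=
  ∀ U : Set (WeakBilin B), IsOpen U → ∀ e : E, ‖e‖ = 1 → (show WeakBilin B from e) ∈ U →
    ∀ ε : ℝ, 0 < ε → ∃ y : E, ‖y‖ ≤ 1 ∧ (show WeakBilin B from y) ∈ U ∧ 2 - ε < ‖e - y‖

theorem step (h : E →ₗ[ℝ] ℝ) (K : ℝ) (hK0 : 0 ≤ K) (hK : ∀ z, h z ≤ K * ‖z‖)
    (hD : ∀ x : E, ‖x‖ = 1 → ∀ τ ε : ℝ, 0 < τ → 0 < ε →
      ∃ y : E, ‖y‖ ≤ 1 ∧ h y < h x + τ ∧ 2 - ε < ‖x - y‖)
    (x0 : E) (hx0 : ‖x0‖ = 1) (y : E) (hy : ‖y‖ ≤ 1) (t δ τ : ℝ) (ht0 : 0 < t) (ht1 : t < 1)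
    (hδ : 0 < δ) (hδ1 : δ < 1) (hτ : 0 < τ) (hfar : 2 - δ < ‖x0 - y‖) :
    ∃ y' : E, ‖y'‖ ≤ 1 ∧ h (y' - x0) ≤ τ + K * (δ + 2 * (1 - t)) ∧
      ∃ φ : E →L[ℝ] ℝ, (∀ z, φ z ≤ ‖z‖) ∧ t - 2 * δ ≤ t * φ x0 ∧
        (1 - t) - 2 * δ ≤ (1 - t) * (- φ y) ∧ 1 - δ ≤ - φ y' := by
  obtain ⟨ψ, hψ, hψ1, hψ2⟩ := norming x0 y hx0.le hy δ (by linarith) hfar
  set w : E := t • x0 - (1 - t) • y with hw
  have hw1 : ‖w‖ ≤ 1 := by
    have h1 : ‖w‖ ≤ ‖t • x0‖ + ‖(1 - t) • y‖ := norm_sub_le _ _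
    rw [norm_smul, norm_smul, Real.norm_of_nonneg ht0.le,
      Real.norm_of_nonneg (by linarith : (0 : ℝ) ≤ 1 - t), hx0] at h1
    nlinarith
  have hw2 : 1 - δ < ‖w‖ := by
    have h1 := hψ w
    have h2 : ψ w = t * ψ x0 + (1 - t) * (- ψ y) := by
      rw [hw, map_sub, map_smul, map_smul, smul_eq_mul, smul_eq_mul]; ring
    nlinarith
  have hwpos : 0 < ‖w‖ := by linarith
  set x : E := (‖w‖⁻¹) • w with hx
  have hx1 : ‖x‖ = 1 := by
    rw [hx, norm_smul, norm_inv, norm_norm]; field_simp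
  have hxw : ‖x - w‖ ≤ δ := by
    have h1 : x - w = (1 - ‖w‖) • x := by
      rw [sub_smul, one_smul, hx, smul_smul, mul_inv_cancel₀ hwpos.ne', one_smul]
    rw [h1, norm_smul, hx1, Real.norm_of_nonneg (by linarith)]
    linarith
  have hwx0 : ‖w - x0‖ ≤ 2 * (1 - t) := by
    have h1 : w - x0 = (1 - t) • (-(x0 + y)) := by
      rw [hw]; module
    rw [h1, norm_smul, Real.norm_of_nonneg (by linarith : (0 : ℝ) ≤ 1 - t), norm_neg]
    have h2 : ‖x0 + y‖ ≤ 2 := by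
      have := norm_add_le x0 y
      linarith
    nlinarith
  have hxx0 : ‖x - x0‖ ≤ δ + 2 * (1 - t) := by
    have : x - x0 = (x - w) + (w - x0) := by abel
    rw [this]
    linarith [norm_add_le (x - w) (w - x0)]
  obtain ⟨y', hy'1, hy'2, hy'3⟩ := hD x hx1 τ δ hτ hδ
  obtain ⟨φ, hφ, hφ1, hφ2⟩ := norming x y' hx1.le hy'1 δ (by linarith) hy'3
  refine ⟨y', hy'1, ?_, φ, hφ, ?_, ?_, hφ2.le⟩
  · have h1 : h (y' - x0) = (h y' - h x) + h (x - x0) := by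
      rw [map_sub, map_sub]; ring
    have h3 : h (x - x0) ≤ K * (δ + 2 * (1 - t)) :=
      le_trans (hK _) (mul_le_mul_of_nonneg_left hxx0 hK0)
    linarith
  · have h1 : φ w = t * φ x0 + (1 - t) * (- φ y) := by
      rw [hw, map_sub, map_smul, map_smul, smul_eq_mul, smul_eq_mul]; ring
    have h2 : φ x - φ w ≤ δ := by
      rw [← map_sub]; exact le_trans (hφ _) hxw
    have h3 : - φ y ≤ 1 := by
      have := hφ (-y)
      rw [map_neg, norm_neg] at this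
      linarith
    nlinarith
  · have h1 : φ w = t * φ x0 + (1 - t) * (- φ y) := by
      rw [hw, map_sub, map_smul, map_smul, smul_eq_mul, smul_eq_mul]; ring
    have h2 : φ x - φ w ≤ δ := by
      rw [← map_sub]; exact le_trans (hφ _) hxw
    have h3 : φ x0 ≤ 1 := le_trans (hφ _) hx0.le
    nlinarith

theorem main_ind (B : E →ₗ[ℝ] F →ₗ[ℝ] ℝ) (hB : ∀ e f, |B e f| ≤ ‖e‖ * ‖f‖) (hD : DLD B)
    {ι : Type*} [Fintype ι] (g : ι → F) (x0 : E) (hx0 : ‖x0‖ = 1) (n : ℕ) :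
    ∀ ε : ℝ, 0 < ε → ∃ y : E, ‖y‖ ≤ 1 ∧ 2 - ε < ‖x0 - y‖ ∧
      ((n : ℝ) + 1) * ∑ j, (B (y - x0) (g j)) ^ 2 ≤ 4 * ∑ j, ‖g j‖ ^ 2 + 1 := by
  have hb : ∀ (j : ι) (z : E), ‖z‖ ≤ 1 → |B (z - x0) (g j)| ≤ 2 * ‖g j‖ := by
    intro j z hz
    have h1 := hB (z - x0) (g j)
    have h2 : ‖z - x0‖ ≤ 2 := by
      have := norm_sub_le z x0
      linarith
    have h3 : ‖z - x0‖ * ‖g j‖ ≤ 2 * ‖g j‖ := mul_le_mul_of_nonneg_right h2 (norm_nonneg _)
    linarith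
  have hV : ∀ z : E, ‖z‖ ≤ 1 → ∑ j, (B (z - x0) (g j)) ^ 2 ≤ 4 * ∑ j, ‖g j‖ ^ 2 := by
    intro z hz
    rw [Finset.mul_sum]
    apply Finset.sum_le_sum
    intro j _
    have h1 := hb j z hz
    have h2 : (B (z - x0) (g j)) ^ 2 = |B (z - x0) (g j)| ^ 2 := (sq_abs _).symm
    rw [h2]
    have h3 := abs_nonneg (B (z - x0) (g j))
    nlinarith
  set S : ℝ := ∑ j, ‖g j‖ ^ 2 with hS
  have hS0 : 0 ≤ S := Finset.sum_nonneg (fun j _ => sq_nonneg _)
  induction n with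
  | zero =>
    intro ε hε
    obtain ⟨y, hy1, -, hy3⟩ := hD x0 hx0 0 1 ε one_pos hε
    refine ⟨y, hy1, hy3, ?_⟩
    have := hV y hy1
    simp only [Nat.cast_zero, zero_add, one_mul]
    linarith
  | succ n ih =>
    intro ε hε
    set m : ℝ := (n : ℝ) + 1 with hm
    have hm1 : 1 ≤ m := by
      have : (0 : ℝ) ≤ n := Nat.cast_nonneg n
      linarith
    have hmpos : 0 < m := by linarith
    set K : ℝ := 2 * S + 1 with hK
    have hK1 : 1 ≤ K := by linarith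
    set s : ℝ := 1 / (16 * m * K) with hs
    have hspos : 0 < s := by positivity
    have hsK : s * (16 * m * K) = 1 := by rw [hs]; field_simp
    have hs2 : s ≤ 1 / 16 := by
      rw [hs]
      apply one_div_le_one_div_of_le (by norm_num)
      nlinarith
    set δ : ℝ := s * min ε 1 / 8 with hδ
    have hmin : 0 < min ε 1 := lt_min hε one_pos
    have hmin1 : min ε 1 ≤ 1 := min_le_right _ _
    have hminε : min ε 1 ≤ ε := min_le_left _ _
    have hδpos : 0 < δ := by positivity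
    have hδs : δ ≤ s / 8 := by
      rw [hδ]; nlinarith
    have hδε : δ ≤ s * ε / 8 := by
      rw [hδ]; nlinarith
    obtain ⟨y, hy1, hy2, hy3⟩ := ih δ hδpos
    set f : F := ∑ j, (B (y - x0) (g j)) • g j with hf
    have hfn : ‖f‖ ≤ K := by
      have h1 : ‖f‖ ≤ ∑ j, ‖(B (y - x0) (g j)) • g j‖ := norm_sum_le _ _
      have h2 : ∑ j, ‖(B (y - x0) (g j)) • g j‖ ≤ ∑ j, 2 * ‖g j‖ ^ 2 := by
        apply Finset.sum_le_sum
        intro j _
        rw [norm_smul, Real.norm_eq_abs]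
        have := hb j y hy1
        have h3 := norm_nonneg (g j)
        nlinarith
      rw [← Finset.mul_sum] at h2
      linarith
    set h : E →ₗ[ℝ] ℝ := B.flip f with hh
    have hhz : ∀ z, h z = B z f := fun z => rfl
    have hhK : ∀ z, h z ≤ K * ‖z‖ := by
      intro z
      have h1 := hB z f
      have h2 : ‖z‖ * ‖f‖ ≤ ‖z‖ * K := mul_le_mul_of_nonneg_left hfn (norm_nonneg _)
      rw [hhz]
      have := le_abs_self (B z f)
      linarith
    have hD' : ∀ x : E, ‖x‖ = 1 → ∀ τ ε : ℝ, 0 < τ → 0 < ε →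
        ∃ y : E, ‖y‖ ≤ 1 ∧ h y < h x + τ ∧ 2 - ε < ‖x - y‖ := by
      intro x hx τ ε hτ hε
      obtain ⟨z, hz1, hz2, hz3⟩ := hD x hx (-f) τ ε hτ hε
      refine ⟨z, hz1, ?_, hz3⟩
      rw [map_neg, map_neg] at hz2
      rw [hhz, hhz]
      linarith
    obtain ⟨y', hy'1, hy'2, φ, hφ, hφ1, hφ2, hφ3⟩ := step h K (by linarith) hhK hD' x0 hx0 y hy1
      (1 - s) δ (s * K)
      (by linarith) (by linarith) hδpos (by linarith) (by positivity) hy2
    have hcross : 2 * m * h (y' - x0) ≤ 1 := by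
      have h1 : K * (δ + 2 * (1 - (1 - s))) ≤ K * (3 * s) :=
        mul_le_mul_of_nonneg_left (by linarith) (by linarith)
      have h2 : h (y' - x0) ≤ 4 * (s * K) := by linarith
      have h3 : 2 * m * h (y' - x0) ≤ 2 * m * (4 * (s * K)) :=
        mul_le_mul_of_nonneg_left h2 (by positivity)
      nlinarith
    have hm2 : 0 < m + 1 := by linarith
    refine ⟨(m / (m + 1)) • y + (1 / (m + 1)) • y', ?_, ?_, ?_⟩
    · have h1 := norm_add_le ((m / (m + 1)) • y) ((1 / (m + 1)) • y')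
      rw [norm_smul, norm_smul, Real.norm_of_nonneg (by positivity),
        Real.norm_of_nonneg (by positivity)] at h1
      have h2 : m / (m + 1) * ‖y‖ ≤ m / (m + 1) :=
        mul_le_of_le_one_right (by positivity) hy1
      have h3 : 1 / (m + 1) * ‖y'‖ ≤ 1 / (m + 1) :=
        mul_le_of_le_one_right (by positivity) hy'1
      have h4 : m / (m + 1) + 1 / (m + 1) = 1 := by field_simp
      linarith
    · have h1 := hφ (x0 - ((m / (m + 1)) • y + (1 / (m + 1)) • y'))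
      have h2 : φ (x0 - ((m / (m + 1)) • y + (1 / (m + 1)) • y')) =
          φ x0 + (m / (m + 1)) * (- φ y) + (1 / (m + 1)) * (- φ y') := by
        rw [map_sub, map_add, map_smul, map_smul]; simp; ring
      have a1 : 1 - ε / 3 ≤ φ x0 := by
        have : (1 - s) * (1 - ε / 3) ≤ (1 - s) * φ x0 := by nlinarith
        exact le_of_mul_le_mul_left this (by linarith)
      have a2 : 1 - ε / 3 ≤ - φ y := by
        have : s * (1 - ε / 3) ≤ s * (- φ y) := by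
          have e : 1 - (1 - s) = s := by ring
          rw [e] at hφ2
          nlinarith
        exact le_of_mul_le_mul_left this hspos
      have a3 : 1 - ε / 3 ≤ - φ y' := by nlinarith
      have h3 : m / (m + 1) * (1 - ε / 3) ≤ m / (m + 1) * (- φ y) :=
        mul_le_mul_of_nonneg_left a2 (by positivity)
      have h4 : 1 / (m + 1) * (1 - ε / 3) ≤ 1 / (m + 1) * (- φ y') :=
        mul_le_mul_of_nonneg_left a3 (by positivity)
      have h5 : m / (m + 1) * (1 - ε / 3) + 1 / (m + 1) * (1 - ε / 3) = 1 - ε / 3 := by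
        field_simp
      linarith
    · have e1 : ∀ j, B ((m / (m + 1)) • y + (1 / (m + 1)) • y' - x0) (g j) =
          (m * B (y - x0) (g j) + B (y' - x0) (g j)) / (m + 1) := by
        intro j
        simp only [map_sub, map_add, map_smul, smul_eq_mul, LinearMap.sub_apply,
          LinearMap.add_apply, LinearMap.smul_apply]
        field_simp
        ring
      have e2 : h (y' - x0) = ∑ j, B (y - x0) (g j) * B (y' - x0) (g j) := by
        rw [hhz, hf, map_sum]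
        apply Finset.sum_congr rfl
        intro j _
        rw [map_smul, smul_eq_mul]
      have e3 : (m + 1) ^ 2 * ∑ j, (B ((m / (m + 1)) • y + (1 / (m + 1)) • y' - x0) (g j)) ^ 2 =
          m * (m * ∑ j, (B (y - x0) (g j)) ^ 2) + 2 * m * h (y' - x0) +
            ∑ j, (B (y' - x0) (g j)) ^ 2 := by
        rw [e2, Finset.mul_sum, Finset.mul_sum, Finset.mul_sum, Finset.mul_sum,
          ← Finset.sum_add_distrib, ← Finset.sum_add_distrib]
        apply Finset.sum_congr rfl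
        intro j _
        rw [e1 j]
        field_simp
        ring
      have h1 := hV y' hy'1
      have h2 : m * (m * ∑ j, (B (y - x0) (g j)) ^ 2) ≤ m * (4 * S + 1) :=
        mul_le_mul_of_nonneg_left hy3 hmpos.le
      have h3 : (m + 1) * ((m + 1) *
          ∑ j, (B ((m / (m + 1)) • y + (1 / (m + 1)) • y' - x0) (g j)) ^ 2) ≤
          (m + 1) * (4 * S + 1) := by nlinarith
      have h4 := le_of_mul_le_mul_left h3 hm2
      have e4 : ((n + 1 : ℕ) : ℝ) + 1 = m + 1 := by rw [hm]; push_cast; ring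
      rw [e4]
      exact h4

theorem fin_of_dld (B : E →ₗ[ℝ] F →ₗ[ℝ] ℝ) (hB : ∀ e f, |B e f| ≤ ‖e‖ * ‖f‖) (hD : DLD B)
    {ι : Type*} [Fintype ι] (g : ι → F) (δ : ℝ) (hδ : 0 < δ) (x : E) (hx : ‖x‖ = 1)
    (ε : ℝ) (hε : 0 < ε) :
    ∃ y : E, ‖y‖ ≤ 1 ∧ (∀ i, |B (y - x) (g i)| < δ) ∧ 2 - ε < ‖x - y‖ := by
  obtain ⟨n, hn⟩ := exists_nat_gt ((4 * ∑ j, ‖g j‖ ^ 2 + 1) / δ ^ 2)
  obtain ⟨y, hy1, hy2, hy3⟩ := main_ind B hB hD g x hx n ε hε
  refine ⟨y, hy1, fun i => ?_, hy2⟩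
  have h1 : (B (y - x) (g i)) ^ 2 ≤ ∑ j, (B (y - x) (g j)) ^ 2 :=
    Finset.single_le_sum (f := fun j => (B (y - x) (g j)) ^ 2) (fun j _ => sq_nonneg _)
      (Finset.mem_univ i)
  have h2 : 4 * ∑ j, ‖g j‖ ^ 2 + 1 < n * δ ^ 2 := by
    rwa [div_lt_iff₀ (by positivity)] at hn
  have h3 : (B (y - x) (g i)) ^ 2 < δ ^ 2 := by
    by_contra hc
    push Not at hc
    have h0 : (0 : ℝ) ≤ n := Nat.cast_nonneg n
    have h4 : ((n : ℝ) + 1) * δ ^ 2 ≤ ((n : ℝ) + 1) * ∑ j, (B (y - x) (g j)) ^ 2 :=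
      mul_le_mul_of_nonneg_left (le_trans hc h1) (by linarith)
    nlinarith [sq_nonneg δ]
  exact abs_lt_of_sq_lt_sq h3 hδ.le

theorem basic_nbhd (B : E →ₗ[ℝ] F →ₗ[ℝ] ℝ) (U : Set (WeakBilin B)) (hU : IsOpen U) (e : E)
    (he : (show WeakBilin B from e) ∈ U) :
    ∃ (I : Finset F) (δ : ℝ), 0 < δ ∧
      ∀ y : E, (∀ f ∈ I, |B (y - e) f| < δ) → (show WeakBilin B from y) ∈ U := by
  obtain ⟨V, hV, hVU⟩ := isOpen_induced_iff.mp hU
  have heV : (fun f => B e f) ∈ V := by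
    rw [← hVU] at he; exact he
  obtain ⟨I, u, hu, hsub⟩ := isOpen_pi_iff.mp hV _ heV
  have hr : ∀ f : F, ∃ r : ℝ, 0 < r ∧ (f ∈ I → Metric.ball (B e f) r ⊆ u f) := by
    intro f
    by_cases hf : f ∈ I
    · obtain ⟨r, hr, hr2⟩ := Metric.isOpen_iff.mp (hu f hf).1 _ (hu f hf).2
      exact ⟨r, hr, fun _ => hr2⟩
    · exact ⟨1, one_pos, fun h => absurd h hf⟩
  choose r hr0 hr1 using hr
  have hδ : ∃ δ : ℝ, 0 < δ ∧ ∀ f ∈ I, δ ≤ r f := by
    by_cases hI : I.Nonempty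
    · obtain ⟨f0, hf0, hmin⟩ := I.exists_min_image r hI
      exact ⟨r f0, hr0 f0, hmin⟩
    · exact ⟨1, one_pos, fun f hf => absurd ⟨f, hf⟩ hI⟩
  obtain ⟨δ, hδ0, hδ1⟩ := hδ
  refine ⟨I, δ, hδ0, fun y hy => ?_⟩
  rw [← hVU]
  apply hsub
  intro f hf
  apply hr1 f hf
  have h1 := hy f hf
  rw [map_sub, LinearMap.sub_apply] at h1
  rw [Metric.mem_ball, Real.dist_eq]
  exact lt_of_lt_of_le h1 (hδ1 f hf)

theorem dd_of_dld (B : E →ₗ[ℝ] F →ₗ[ℝ] ℝ) (hB : ∀ e f, |B e f| ≤ ‖e‖ * ‖f‖) (hD : DLD B) :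
    DD B := by
  intro U hU e he heU ε hε
  obtain ⟨I, δ, hδ, hI⟩ := basic_nbhd B U hU e heU
  obtain ⟨y, hy1, hy2, hy3⟩ := fin_of_dld B hB hD (fun i : I => (i : F)) δ hδ e he ε hε
  exact ⟨y, hy1, hI y (fun f hf => hy2 ⟨f, hf⟩), hy3⟩

theorem dld_of_dd (B : E →ₗ[ℝ] F →ₗ[ℝ] ℝ) (hD : DD B) : DLD B := by
  intro e he f τ ε hτ hε
  have hU : IsOpen {y : WeakBilin B | B e f - τ < B y f} :=
    isOpen_lt continuous_const (WeakBilin.eval_continuous B f)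
  obtain ⟨y, hy1, hy2, hy3⟩ := hD _ hU e he (by
    show B e f - τ < B e f
    linarith) ε hε
  exact ⟨y, hy1, hy2, hy3⟩

theorem dld_flip (B : E →ₗ[ℝ] F →ₗ[ℝ] ℝ) (hB : ∀ e f, |B e f| ≤ ‖e‖ * ‖f‖)
    (hE : ∀ (e : E) (c : ℝ), c < ‖e‖ → ∃ f : F, ‖f‖ ≤ 1 ∧ c < B e f)
    (hF : ∀ (f : F) (c : ℝ), c < ‖f‖ → ∃ e : E, ‖e‖ ≤ 1 ∧ c < B e f)
    (hD : DLD B) : DLD B.flip := by
  intro φ hφ x τ ε hτ hε
  have hle : ∀ (e : E) (f : F), ‖f‖ ≤ 1 → B e f ≤ ‖e‖ := by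
    intro e f hf
    have h1 := hB e f
    have h2 := le_abs_self (B e f)
    have h3 : ‖e‖ * ‖f‖ ≤ ‖e‖ := mul_le_of_le_one_right (norm_nonneg _) hf
    linarith
  set N : ℝ := ‖x‖ + 1 with hN
  have hN1 : 1 ≤ N := by linarith [norm_nonneg x]
  have hxN : ‖x‖ ≤ N := by linarith
  set ε' : ℝ := min ε 1 with hε'
  have hε'0 : 0 < ε' := lt_min hε one_pos
  have hε'1 : ε' ≤ 1 := min_le_right _ _
  have hε'ε : ε' ≤ ε := min_le_left _ _
  set s : ℝ := ε' / (8 * N) with hs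
  have hs0 : 0 < s := by positivity
  have hsN : s * N = ε' / 8 := by rw [hs]; field_simp
  have hs1 : s ≤ 1 / 8 := by nlinarith
  set η : ℝ := s * min τ 1 / 8 with hη
  have hm0 : 0 < min τ 1 := lt_min hτ one_pos
  have hm1 : min τ 1 ≤ 1 := min_le_right _ _
  have hmτ : min τ 1 ≤ τ := min_le_left _ _
  have hη0 : 0 < η := by positivity
  have hηs : η ≤ s / 8 := by rw [hη]; nlinarith
  have hητ : η ≤ s * τ / 8 := by rw [hη]; nlinarith
  have hηε : η ≤ ε' / 64 := by nlinarith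
  obtain ⟨x1, hx1, hx1'⟩ := hF φ (1 - η) (by linarith)
  set β : ℝ := B x φ with hβ
  have hβ1 : |β| ≤ N := by
    have := hB x φ
    rw [hφ, mul_one] at this
    linarith
  have hsβ : |s * β| ≤ ε' / 8 := by
    rw [abs_mul, abs_of_pos hs0, ← hsN]
    exact mul_le_mul_of_nonneg_left hβ1 hs0.le
  have hsβ' := abs_le.mp hsβ
  set z : E := x1 + s • x with hz
  have hzφ : B z φ = B x1 φ + s * β := by
    rw [hz, map_add, map_smul, LinearMap.add_apply, LinearMap.smul_apply, smul_eq_mul]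
  have hz1 : ‖z‖ ≤ 1 + ε' / 8 := by
    have h1 := norm_add_le x1 (s • x)
    rw [norm_smul, Real.norm_of_nonneg hs0.le] at h1
    have h2 : s * ‖x‖ ≤ s * N := mul_le_mul_of_nonneg_left hxN hs0.le
    linarith
  have hz2 : B z φ ≤ ‖z‖ := hle z φ hφ.le
  have hz3 : 1 - η + s * β < ‖z‖ := by linarith
  have hzpos : 0 < ‖z‖ := by linarith
  set u : E := (‖z‖⁻¹) • z with hu
  have hu1 : ‖u‖ = 1 := by
    rw [hu, norm_smul, norm_inv, norm_norm]; field_simp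
  have huz : ∀ f : F, ‖z‖ * B u f = B z f := by
    intro f
    rw [hu, map_smul, LinearMap.smul_apply, smul_eq_mul]
    field_simp
  obtain ⟨y, hy1, hy2, hy3⟩ := hD u hu1 φ η η hη0 hη0
  obtain ⟨g, hg1, hg2⟩ := hE (u - y) (2 - η) hy3
  rw [map_sub, LinearMap.sub_apply] at hg2
  have hgu : B u g ≤ 1 := by
    have := hle u g hg1
    linarith
  have hgy : - B y g ≤ 1 := by
    have := hle (-y) g hg1
    rw [map_neg, LinearMap.neg_apply, norm_neg] at this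
    linarith
  refine ⟨g, hg1, ?_, ?_⟩
  · show B x φ - τ < B x g
    have h1 : B z g = B x1 g + s * B x g := by
      rw [hz, map_add, map_smul, LinearMap.add_apply, LinearMap.smul_apply, smul_eq_mul]
    have h2 : B x1 g ≤ 1 := le_trans (hle x1 g hg1) hx1
    have h3 : 1 - η < B u g := by linarith
    have h4 : ‖z‖ * (1 - η) ≤ ‖z‖ * B u g := mul_le_mul_of_nonneg_left h3.le hzpos.le
    have h5 : (1 - η + s * β) * (1 - η) ≤ ‖z‖ * (1 - η) :=
      mul_le_mul_of_nonneg_right hz3.le (by linarith)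
    have h6 := huz g
    have h7 : η * (s * β) ≤ η * 1 := mul_le_mul_of_nonneg_left (by linarith) hη0.le
    have h8 : s * (β - τ) < s * B x g := by nlinarith
    exact lt_of_mul_lt_mul_left h8 hs0.le
  · have h1 : B y (φ - g) ≤ ‖φ - g‖ := by
      have h2 := hB y (φ - g)
      have h3 := le_abs_self (B y (φ - g))
      have h4 : ‖y‖ * ‖φ - g‖ ≤ ‖φ - g‖ := mul_le_of_le_one_left (norm_nonneg _) hy1
      linarith
    rw [map_sub] at h1
    have h2 : 1 - ε' / 2 ≤ B u φ := by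
      by_contra hc
      push Not at hc
      have h3 : ‖z‖ * B u φ < ‖z‖ * (1 - ε' / 2) := mul_lt_mul_of_pos_left hc hzpos
      have h4 : ‖z‖ * (1 - ε' / 2) ≤ (1 + ε' / 8) * (1 - ε' / 2) :=
        mul_le_mul_of_nonneg_right hz1 (by linarith)
      have h5 := huz φ
      nlinarith
    linarith

end Pool.Agent.H837Z.Diam2
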