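import Mathlib

set_option autoImplicit false

namespace Pool.Agent.H837Z.KT

def PX : Fin 8 → ℤ := ![0, 2, 3, 3, 2, 3, 0, 1]
def PY : Fin 8 → ℤ := ![0, 3, 0, 2, 1, 1, 2, 0]
def DX : Fin 8 → Fin 8 → ℤ := ![![0, -2, -1, -1, 0, 0, 0, 1], ![2, 0, 1, 0, 0, 0, -2, -1], ![1, -1, 0, 0, 0, 0, 1, -2], ![1, 0, 0, 0, -1, 0, 1, 2], ![0, 0, 0, 1, 0, 1, -2, -1], ![0, 0, 0, 0, -1, 0, 1, -2], ![0, 2, -1, -1, 2, -1, 0, 1], ![-1, 1, 2, -2, 1, 2, -1, 0]]
def DY : Fin 8 → Fin 8 → ℤ := ![![0, -1, 0, -2, 0, 0, 2, 0], ![1, 0, 1, 0, -2, 0, -1, 1], ![0, -1, 0, 0, 0, 1, 2, 0], ![2, 0, 0, 0, -1, -1, 0, 2], ![0, 2, 0, 1, 0, 0, 1, -1], ![0, 0, -1, 1, 0, 0, 1, -1], ![-2, 1, -2, 0, -1, -1, 0, 2], ![0, -1, 0, -2, 1, 1, -2, 0]]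

def adj (u v : Fin 8) : Bool := DX u v != 0 || DY u v != 0

theorem adj_symm : ∀ u v : Fin 8, adj u v = true → adj v u = true := by decide +kernel
theorem adj_irrefl : ∀ u : Fin 8, ¬ (adj u u = true) := by decide +kernel

/-- the join of an edge with the triangular prism -/
def G : SimpleGraph (Fin 8) where
  Adj u v := adj u v = true
  symm := ⟨fun u v h => adj_symm u v h⟩
  loopless := ⟨fun u h => adj_irrefl u h⟩

def sep (a b wx wy dx dy ex ey : ℤ) : Bool :=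
  decide (0 ≤ a * wx + b * wy) && decide (0 ≤ a * (wx + ex) + b * (wy + ey)) &&
  decide (0 ≤ a * (wx - dx) + b * (wy - dy)) &&
  decide (0 ≤ a * (wx + ex - dx) + b * (wy + ey - dy)) &&
  decide (0 < a * (2 * wx + ex - dx) + b * (2 * wy + ey - dy))

def ok (wx wy dx dy ex ey : ℤ) : Bool :=
  sep (-dy) dx wx wy dx dy ex ey || sep dy (-dx) wx wy dx dy ex ey ||
  sep (-ey) ex wx wy dx dy ex ey || sep ey (-ex) wx wy dx dy ex ey ||
  sep dx dy wx wy dx dy ex ey || sep (-dx) (-dy) wx wy dx dy ex ey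

theorem sep_sound (a b wx wy dx dy ex ey : ℤ) (h : sep a b wx wy dx dy ex ey = true)
    (s t : ℝ) (hs0 : 0 < s) (hs1 : s < 1) (ht0 : 0 < t) (ht1 : t < 1)
    (hx : (wx : ℝ) + t * ex - s * dx = 0) (hy : (wy : ℝ) + t * ey - s * dy = 0) : False := by
  simp only [sep, Bool.and_eq_true, decide_eq_true_eq] at h
  obtain ⟨⟨⟨⟨h1, h2⟩, h3⟩, h4⟩, h5⟩ := h
  have g1 : (0 : ℝ) ≤ a * wx + b * wy := by exact_mod_cast h1
  have g2 : (0 : ℝ) ≤ a * (wx + ex) + b * (wy + ey) := by exact_mod_cast h2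
  have g3 : (0 : ℝ) ≤ a * (wx - dx) + b * (wy - dy) := by exact_mod_cast h3
  have g4 : (0 : ℝ) ≤ a * (wx + ex - dx) + b * (wy + ey - dy) := by exact_mod_cast h4
  have g5 : (0 : ℝ) < a * (2 * wx + ex - dx) + b * (2 * wy + ey - dy) := by exact_mod_cast h5
  set A : ℝ := a * wx + b * wy with hA
  set B : ℝ := a * (wx + ex) + b * (wy + ey) with hB
  set C : ℝ := a * (wx - dx) + b * (wy - dy) with hC
  set D : ℝ := a * (wx + ex - dx) + b * (wy + ey - dy) with hD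
  have e : (1 - s) * (1 - t) * A + (1 - s) * t * B + s * (1 - t) * C + s * t * D = 0 := by
    have : (1 - s) * (1 - t) * A + (1 - s) * t * B + s * (1 - t) * C + s * t * D =
        a * ((wx : ℝ) + t * ex - s * dx) + b * ((wy : ℝ) + t * ey - s * dy) := by
      rw [hA, hB, hC, hD]; ring
    rw [this, hx, hy]; ring
  have p1 : 0 < (1 - s) * (1 - t) := mul_pos (by linarith) (by linarith)
  have p4 : 0 < s * t := mul_pos hs0 ht0
  have q1 : 0 ≤ (1 - s) * (1 - t) * A := mul_nonneg p1.le g1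
  have q2 : 0 ≤ (1 - s) * t * B := mul_nonneg (mul_pos (by linarith) ht0).le g2
  have q3 : 0 ≤ s * (1 - t) * C := mul_nonneg (mul_pos hs0 (by linarith)).le g3
  have q4 : 0 ≤ s * t * D := mul_nonneg p4.le g4
  have r1 : (1 - s) * (1 - t) * A = 0 := by linarith
  have r4 : s * t * D = 0 := by linarith
  have a0 : A = 0 := by
    rcases mul_eq_zero.mp r1 with h | h
    · exact absurd h p1.ne'
    · exact h
  have d0 : D = 0 := by
    rcases mul_eq_zero.mp r4 with h | h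
    · exact absurd h p4.ne'
    · exact h
  have : (a : ℝ) * (2 * wx + ex - dx) + b * (2 * wy + ey - dy) = A + D := by
    rw [hA, hD]; ring
  linarith

theorem ok_sound (wx wy dx dy ex ey : ℤ) (h : ok wx wy dx dy ex ey = true)
    (s t : ℝ) (hs0 : 0 < s) (hs1 : s < 1) (ht0 : 0 < t) (ht1 : t < 1)
    (hx : (wx : ℝ) + t * ex - s * dx = 0) (hy : (wy : ℝ) + t * ey - s * dy = 0) : False := by
  simp only [ok, Bool.or_eq_true] at h
  rcases h with ((((h | h) | h) | h) | h) | h <;>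
    exact sep_sound _ _ _ _ _ _ _ _ h s t hs0 hs1 ht0 ht1 hx hy

def sh (k : Fin 3) : ℤ := 4 * ((k : ℤ) - 1)

theorem edge_ok : ∀ u v : Fin 8, adj u v = true → ∀ u' v' : Fin 8, adj u' v' = true →
    ¬ ((u = u' ∧ v = v') ∨ (u = v' ∧ v = u')) → ∀ k l : Fin 3,
    ok (PX u' + sh k - PX u) (PY u' + sh l - PY u) (DX u v) (DY u v) (DX u' v') (DY u' v') = true := by
  decide +kernel

theorem vert_ok : ∀ u v : Fin 8, adj u v = true → ∀ w : Fin 8, ∀ k l : Fin 3,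
    ok (PX w + sh k - PX u) (PY w + sh l - PY u) (DX u v) (DY u v) 0 0 = true := by
  decide +kernel

theorem bounds : (∀ u, 0 ≤ PX u ∧ PX u ≤ 3 ∧ 0 ≤ PY u ∧ PY u ≤ 3) ∧
    (∀ u v, -2 ≤ DX u v ∧ DX u v ≤ 2 ∧ -2 ≤ DY u v ∧ DY u v ≤ 2) := by decide +kernel

theorem ends : ∀ u v : Fin 8, adj u v = true →
    (4 : ℤ) ∣ PX u + DX u v - PX v ∧ (4 : ℤ) ∣ PY u + DY u v - PY v := by decide +kernel

theorem pinj : ∀ u v : Fin 8, PX u = PX v → PY u = PY v → u = v := by decide +kernel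

theorem circ_eq (x y : ℝ) :
    ((x / 4 : ℝ) : AddCircle (1 : ℝ)) = ((y / 4 : ℝ) : AddCircle (1 : ℝ)) ↔
      ∃ k : ℤ, y + 4 * k - x = 0 := by
  rw [← sub_eq_zero, ← AddCircle.coe_sub, AddCircle.coe_eq_zero_iff]
  constructor
  · rintro ⟨k, hk⟩
    refine ⟨k, ?_⟩
    simp only [zsmul_eq_mul, mul_one] at hk
    linarith
  · rintro ⟨k, hk⟩
    refine ⟨k, ?_⟩
    simp only [zsmul_eq_mul, mul_one]
    linarith

theorem shift (k : ℤ) (h1 : (-8 : ℝ) < 4 * k) (h2 : (4 : ℝ) * k < 8) :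
    ∃ j : Fin 3, (sh j : ℝ) = 4 * k := by
  have g1 : (-8 : ℤ) < 4 * k := by exact_mod_cast h1
  have g2 : (4 : ℤ) * k < 8 := by exact_mod_cast h2
  have : k = -1 ∨ k = 0 ∨ k = 1 := by omega
  rcases this with rfl | rfl | rfl
  · exact ⟨0, by simp [sh]⟩
  · exact ⟨1, by simp [sh]⟩
  · exact ⟨2, by simp [sh]⟩

noncomputable def p (u : Fin 8) : AddCircle (1:ℝ) × AddCircle (1:ℝ) :=
  ((((PX u : ℝ) / 4 : ℝ) : AddCircle (1:ℝ)), (((PY u : ℝ) / 4 : ℝ) : AddCircle (1:ℝ)))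

noncomputable def γ (u v : Fin 8) : C(unitInterval, AddCircle (1:ℝ) × AddCircle (1:ℝ)) where
  toFun t := (((((PX u : ℝ) + (t : ℝ) * DX u v) / 4 : ℝ) : AddCircle (1:ℝ)),
    ((((PY u : ℝ) + (t : ℝ) * DY u v) / 4 : ℝ) : AddCircle (1:ℝ)))
  continuous_toFun := by
    apply Continuous.prodMk
    · exact (AddCircle.continuous_mk' (1 : ℝ)).comp (by fun_prop)
    · exact (AddCircle.continuous_mk' (1 : ℝ)).comp (by fun_prop)

theorem γ_apply (u v : Fin 8) (t : unitInterval) : γ u v t =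
    (((((PX u : ℝ) + (t : ℝ) * DX u v) / 4 : ℝ) : AddCircle (1:ℝ)),
    ((((PY u : ℝ) + (t : ℝ) * DY u v) / 4 : ℝ) : AddCircle (1:ℝ))) := rfl

theorem rb (u : Fin 8) : (0 : ℝ) ≤ PX u ∧ (PX u : ℝ) ≤ 3 ∧ (0 : ℝ) ≤ PY u ∧ (PY u : ℝ) ≤ 3 := by
  obtain ⟨h1, h2, h3, h4⟩ := bounds.1 u
  exact ⟨by exact_mod_cast h1, by exact_mod_cast h2, by exact_mod_cast h3, by exact_mod_cast h4⟩

theorem mb (d : ℤ) (h1 : -2 ≤ d) (h2 : d ≤ 2) (t : ℝ) (h0 : -1 ≤ t) (h3 : t ≤ 1) :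
    -2 ≤ t * d ∧ t * d ≤ 2 := by
  have g1 : (-2 : ℝ) ≤ d := by exact_mod_cast h1
  have g2 : (d : ℝ) ≤ 2 := by exact_mod_cast h2
  constructor <;> nlinarith

theorem embeds : Function.Injective p ∧
    (∀ u v, G.Adj u v → γ u v 0 = p u ∧ γ u v 1 = p v ∧ Function.Injective (γ u v)) ∧
    (∀ (u v w : Fin 8) (t : unitInterval), G.Adj u v → 0 < (t:ℝ) → (t:ℝ) < 1 →
      γ u v t ≠ p w) ∧
    (∀ (u v u' v' : Fin 8) (s t : unitInterval), G.Adj u v → G.Adj u' v' →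
      ¬ ((u = u' ∧ v = v') ∨ (u = v' ∧ v = u')) →
      0 < (s:ℝ) → (s:ℝ) < 1 → 0 < (t:ℝ) → (t:ℝ) < 1 → γ u v s ≠ γ u' v' t) := by
  refine ⟨?_, ?_, ?_, ?_⟩
  · intro u v h
    simp only [p, Prod.mk.injEq, circ_eq] at h
    obtain ⟨⟨k, hk⟩, ⟨l, hl⟩⟩ := h
    have hk' : PX v + 4 * k - PX u = 0 := by exact_mod_cast hk
    have hl' : PY v + 4 * l - PY u = 0 := by exact_mod_cast hl
    have b1 := bounds.1 u
    have b2 := bounds.1 v
    apply pinj <;> omega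
  · intro u v huv
    refine ⟨?_, ?_, ?_⟩
    · simp [γ_apply, p]
    · obtain ⟨⟨k, hk⟩, ⟨l, hl⟩⟩ := ends u v huv
      rw [γ_apply, p, Prod.mk.injEq, circ_eq, circ_eq]
      have hk' : (PX u : ℝ) + DX u v - PX v = 4 * k := by exact_mod_cast hk
      have hl' : (PY u : ℝ) + DY u v - PY v = 4 * l := by exact_mod_cast hl
      refine ⟨⟨k, ?_⟩, ⟨l, ?_⟩⟩
      · simp only [Set.Icc.coe_one, one_mul]; linarith
      · simp only [Set.Icc.coe_one, one_mul]; linarith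
    · intro s t h
      rw [γ_apply, γ_apply, Prod.mk.injEq, circ_eq, circ_eq] at h
      obtain ⟨⟨k, hk⟩, ⟨l, hl⟩⟩ := h
      obtain ⟨d1, d2, d3, d4⟩ := bounds.2 u v
      have s0 := s.2.1
      have s1 := s.2.2
      have t0 := t.2.1
      have t1 := t.2.2
      obtain ⟨m1, m2⟩ := mb _ d1 d2 ((s : ℝ) - t) (by linarith) (by linarith)
      obtain ⟨m3, m4⟩ := mb _ d3 d4 ((s : ℝ) - t) (by linarith) (by linarith)
      have k1 : (-4 : ℝ) < 4 * k := by linarith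
      have k2 : (4 : ℝ) * k < 4 := by linarith
      have l1 : (-4 : ℝ) < 4 * l := by linarith
      have l2 : (4 : ℝ) * l < 4 := by linarith
      have k1' : (-4 : ℤ) < 4 * k := by exact_mod_cast k1
      have k2' : (4 : ℤ) * k < 4 := by exact_mod_cast k2
      have l1' : (-4 : ℤ) < 4 * l := by exact_mod_cast l1
      have l2' : (4 : ℤ) * l < 4 := by exact_mod_cast l2
      have k0 : k = 0 := by omega
      have l0 : l = 0 := by omega
      subst k0 l0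
      have e1 : ((s : ℝ) - t) * DX u v = 0 := by push_cast at hk; linarith
      have e2 : ((s : ℝ) - t) * DY u v = 0 := by push_cast at hl; linarith
      have hst : (s : ℝ) - t = 0 := by
        by_contra hne
        have x0 : (DX u v : ℝ) = 0 := (mul_eq_zero.mp e1).resolve_left hne
        have y0 : (DY u v : ℝ) = 0 := (mul_eq_zero.mp e2).resolve_left hne
        have x0' : DX u v = 0 := by exact_mod_cast x0
        have y0' : DY u v = 0 := by exact_mod_cast y0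
        have : adj u v = true := huv
        simp [adj, x0', y0'] at this
      exact Subtype.ext (by linarith)
  · intro u v w t huv t0 t1 h
    rw [γ_apply, p, Prod.mk.injEq, circ_eq, circ_eq] at h
    obtain ⟨⟨k, hk⟩, ⟨l, hl⟩⟩ := h
    obtain ⟨d1, d2, d3, d4⟩ := bounds.2 u v
    obtain ⟨m1, m2⟩ := mb _ d1 d2 (t : ℝ) (by linarith) (by linarith)
    obtain ⟨m3, m4⟩ := mb _ d3 d4 (t : ℝ) (by linarith) (by linarith)
    obtain ⟨a1, a2, a3, a4⟩ := rb u
    obtain ⟨b1, b2, b3, b4⟩ := rb w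
    obtain ⟨i, hi⟩ := shift k (by linarith) (by linarith)
    obtain ⟨j, hj⟩ := shift l (by linarith) (by linarith)
    refine ok_sound _ _ _ _ _ _ (vert_ok u v huv w i j) t (1 / 2) t0 t1 (by norm_num)
      (by norm_num) ?_ ?_
    · push_cast; rw [hi]; linarith
    · push_cast; rw [hj]; linarith
  · intro u v u' v' s t huv huv' hne s0 s1 t0 t1 h
    rw [γ_apply, γ_apply, Prod.mk.injEq, circ_eq, circ_eq] at h
    obtain ⟨⟨k, hk⟩, ⟨l, hl⟩⟩ := h
    obtain ⟨d1, d2, d3, d4⟩ := bounds.2 u v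
    obtain ⟨e1, e2, e3, e4⟩ := bounds.2 u' v'
    obtain ⟨m1, m2⟩ := mb _ d1 d2 (s : ℝ) (by linarith) (by linarith)
    obtain ⟨m3, m4⟩ := mb _ d3 d4 (s : ℝ) (by linarith) (by linarith)
    obtain ⟨n1, n2⟩ := mb _ e1 e2 (t : ℝ) (by linarith) (by linarith)
    obtain ⟨n3, n4⟩ := mb _ e3 e4 (t : ℝ) (by linarith) (by linarith)
    obtain ⟨a1, a2, a3, a4⟩ := rb u
    obtain ⟨b1, b2, b3, b4⟩ := rb u'
    obtain ⟨i, hi⟩ := shift k (by linarith) (by linarith)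
    obtain ⟨j, hj⟩ := shift l (by linarith) (by linarith)
    refine ok_sound _ _ _ _ _ _ (edge_ok u v huv u' v' huv' hne i j) s t s0 s1 t0 t1 ?_ ?_
    · push_cast; rw [hi]; linarith
    · push_cast; rw [hj]; linarith

def k1 : Fin 8 → Fin 5 := ![0, 1, 2, 1, 2, 0, 3, 4]
def k2 : Fin 8 → Fin 5 := ![0, 1, 2, 2, 0, 1, 3, 4]

theorem k1_ok : ∀ u v : Fin 8, adj u v = true → k1 u ≠ k1 v := by decide +kernel
theorem k2_ok : ∀ u v : Fin 8, adj u v = true → k2 u ≠ k2 v := by decide +kernel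

def c1 : G.Coloring (Fin 5) := SimpleGraph.Coloring.mk k1 (fun h => k1_ok _ _ h)
def c2 : G.Coloring (Fin 5) := SimpleGraph.Coloring.mk k2 (fun h => k2_ok _ _ h)

theorem conn : ∀ i j : Fin 5, i ≠ j → ∀ u v : Fin 8, (k1 u = i ∨ k1 u = j) →
    (k1 v = i ∨ k1 v = j) → ∃ w z : Fin 8, (k1 w = i ∨ k1 w = j) ∧ (k1 z = i ∨ k1 z = j) ∧
      (u = w ∨ adj u w = true) ∧ (w = z ∨ adj w z = true) ∧ (z = v ∨ adj z v = true) := by
  decide +kernel

theorem step (c c' : Fin 8 → Fin 5) (hc : ∃ f : Fin 5 → Fin 5, Function.Injective f ∧ c = f ∘ k1)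
    (h : ∃ (a b : Fin 5) (x : Fin 8), ∀ v : Fin 8,
      ((SimpleGraph.fromRel (fun y z => G.Adj y z ∧ (c y = a ∨ c y = b) ∧
          (c z = a ∨ c z = b))).Reachable x v → c' v = Equiv.swap a b (c v)) ∧
      (¬ (SimpleGraph.fromRel (fun y z => G.Adj y z ∧ (c y = a ∨ c y = b) ∧
          (c z = a ∨ c z = b))).Reachable x v → c' v = c v)) :
    ∃ f : Fin 5 → Fin 5, Function.Injective f ∧ c' = f ∘ k1 := by
  obtain ⟨f, hf, hcf⟩ := hc
  obtain ⟨a, b, x, h⟩ := h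
  set H := SimpleGraph.fromRel (fun y z => G.Adj y z ∧ (c y = a ∨ c y = b) ∧
          (c z = a ∨ c z = b)) with hH
  by_cases hex : ∃ u, (c u = a ∨ c u = b) ∧ H.Reachable x u ∧ a ≠ b
  · obtain ⟨u, hu, hxu, hab⟩ := hex
    refine ⟨Equiv.swap a b ∘ f, (Equiv.injective _).comp hf, ?_⟩
    have hsurj : Function.Surjective f := Finite.surjective_of_injective hf
    obtain ⟨i, rfl⟩ := hsurj a
    obtain ⟨j, rfl⟩ := hsurj b
    have hij : i ≠ j := fun e => hab (by rw [e])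
    have key : ∀ y, (c y = f i ∨ c y = f j) ↔ (k1 y = i ∨ k1 y = j) := by
      intro y
      rw [hcf, Function.comp_apply, hf.eq_iff, hf.eq_iff]
    have one : ∀ y z, (k1 y = i ∨ k1 y = j) → (k1 z = i ∨ k1 z = j) →
        (y = z ∨ adj y z = true) → H.Reachable y z := by
      intro y z hy hz hyz
      rcases hyz with rfl | hyz
      · exact SimpleGraph.Reachable.refl _
      · apply SimpleGraph.Adj.reachable
        rw [hH, SimpleGraph.fromRel_adj]
        have hG : G.Adj y z := hyz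
        exact ⟨hG.ne, Or.inl ⟨hG, (key y).mpr hy, (key z).mpr hz⟩⟩
    funext v
    by_cases hv : c v = f i ∨ c v = f j
    · obtain ⟨w, z, hw, hz, e1, e2, e3⟩ := conn i j hij u v ((key u).mp hu) ((key v).mp hv)
      have hr : H.Reachable x v := hxu.trans ((one u w ((key u).mp hu) hw e1).trans
        ((one w z hw hz e2).trans (one z v hz ((key v).mp hv) e3)))
      rw [(h v).1 hr, hcf]; rfl
    · push Not at hv
      have hs : Equiv.swap (f i) (f j) (c v) = c v := Equiv.swap_apply_of_ne_of_ne hv.1 hv.2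
      have : c' v = Equiv.swap (f i) (f j) (c v) := by
        by_cases hr : H.Reachable x v
        · exact (h v).1 hr
        · rw [hs]; exact (h v).2 hr
      rw [this, hcf]; rfl
  · refine ⟨f, hf, ?_⟩
    rw [← hcf]
    funext v
    by_cases hr : H.Reachable x v
    · rw [(h v).1 hr]
      by_cases hab : a = b
      · rw [hab, Equiv.swap_self]; rfl
      · have hv : ¬ (c v = a ∨ c v = b) := fun hv => hex ⟨v, hv, hr, hab⟩
        push Not at hv
        exact Equiv.swap_apply_of_ne_of_ne hv.1 hv.2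
    · exact (h v).2 hr

theorem not_inv : ¬ ∃ f : Fin 5 → Fin 5, Function.Injective f ∧ k2 = f ∘ k1 := by
  rintro ⟨f, -, h⟩
  have h0 := congrFun h 0
  have h5 := congrFun h 5
  have e : k2 0 = k2 5 := by rw [h0, h5]; rfl
  exact absurd e (by decide)

end Pool.Agent.H837Z.KT
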