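import Mathlib

set_option autoImplicit false
open Complex Set Metric Filter Topology

namespace Pool.Agent.H837Z.Normal

lemma cauchy_est {f : ℂ → ℂ} {c d : ℂ} {η C : ℝ} (hη : 0 < η)
    (hf : ∀ z ∈ closedBall c η, DifferentiableAt ℂ f z) (hC : ∀ z ∈ closedBall c η, ‖f z‖ ≤ C)
    (hd : HasDerivAt f d c) : ‖d‖ ≤ C / η := by
  rw [← hd.deriv]
  apply Complex.norm_deriv_le_of_forall_mem_sphere_norm_le hη
  · apply DifferentiableOn.diffContOnCl
    rw [closure_ball c hη.ne']
    exact fun z hz => (hf z hz).differentiableWithinAt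
  · exact fun z hz => hC z (sphere_subset_closedBall hz)

/-- The logarithmic form of the Euler-Poisson-Darboux equation on a bidisc. -/
structure EPD (R : ℝ) (a b : ℂ) (p q r : ℂ → ℂ → ℂ) : Prop where
  cp : ContinuousOn (fun z : ℂ × ℂ => p z.1 z.2) (ball 0 R ×ˢ ball 0 R)
  cq : ContinuousOn (fun z : ℂ × ℂ => q z.1 z.2) (ball 0 R ×ˢ ball 0 R)
  px : ∀ x y : ℂ, ‖x‖ < R → ‖y‖ < R → DifferentiableAt ℂ (fun x => p x y) x
  py : ∀ x y : ℂ, ‖x‖ < R → ‖y‖ < R → HasDerivAt (fun y => p x y) (r x y) y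
  qx : ∀ x y : ℂ, ‖x‖ < R → ‖y‖ < R → HasDerivAt (fun x => q x y) (r x y) x
  qy : ∀ x y : ℂ, ‖x‖ < R → ‖y‖ < R → DifferentiableAt ℂ (fun y => q x y) y
  eq : ∀ x y : ℂ, ‖x‖ < R → ‖y‖ < R →
    (x - y) * (r x y + p x y * q x y) = a * q x y - b * p x y

lemma EPD.symm {R : ℝ} {a b : ℂ} {p q r : ℂ → ℂ → ℂ} (S : EPD R a b p q r) :
    EPD R b a (fun x y => q y x) (fun x y => p y x) (fun x y => r y x) where
  cp := S.cq.comp (f := Prod.swap) continuous_swap.continuousOn (fun _ hz => ⟨hz.2, hz.1⟩)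
  cq := S.cp.comp (f := Prod.swap) continuous_swap.continuousOn (fun _ hz => ⟨hz.2, hz.1⟩)
  px := fun x y hx hy => S.qy y x hy hx
  py := fun x y hx hy => S.qx y x hy hx
  qx := fun x y hx hy => S.py y x hy hx
  qy := fun x y hx hy => S.px y x hy hx
  eq := fun x y hx hy => by
    have := S.eq y x hy hx
    linear_combination -this

/-- The explicit constant. -/
noncomputable def K0 (A B : ℝ) : ℝ :=
  64 * A + (8 * (512 * (1024 * B + 8192)) + 2) + 16 * (4 * (512 * (1024 * B + 8192)) + A * B) / B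

lemma EPD.half {R : ℝ} {a b : ℂ} {p q r : ℂ → ℂ → ℂ} (S : EPD R a b p q r) (hb : b ≠ 0)
    {s d M : ℝ} (hR : R ≤ 1) (hs : 0 ≤ s) (hd : 0 < d) (hsd : s + d < R)
    (hbd : ∀ x y : ℂ, ‖x‖ ≤ s + d / 2 → ‖y‖ ≤ s + d / 2 → ‖p x y‖ ≤ 16 * M ∧ ‖q x y‖ ≤ 16 * M)
    {xs ys : ℂ} (hxs : ‖xs‖ ≤ s) (hys : ‖ys‖ ≤ s) (hM : M ≤ ‖p xs ys‖) :
    d ^ 4 * M ≤ K0 ‖a‖ ‖b‖ := by
  by_contra hcon
  push Not at hcon
  obtain ⟨A, hA⟩ : ∃ A, A = ‖a‖ := ⟨_, rfl⟩
  obtain ⟨B, hB⟩ : ∃ B, B = ‖b‖ := ⟨_, rfl⟩
  have hA0 : 0 ≤ A := hA ▸ norm_nonneg _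
  have hB0 : 0 < B := hB ▸ norm_pos_iff.2 hb
  rw [← hA, ← hB] at hcon
  obtain ⟨C2, hC2⟩ : ∃ C2, C2 = 512 * (1024 * B + 8192) := ⟨_, rfl⟩
  have hC20 : 0 < C2 := by rw [hC2]; positivity
  unfold K0 at hcon
  rw [← hC2] at hcon
  have hT0 : 0 ≤ 16 * (4 * C2 + A * B) / B := by positivity
  have hd1 : d ≤ 1 := by linarith
  have hK1 : 64 * A < d ^ 4 * M := by linarith
  have hK2 : 8 * C2 + 2 < d ^ 4 * M := by linarith
  have hK3 : 16 * (4 * C2 + A * B) / B < d ^ 4 * M := by linarith
  have hM0 : 0 < M := by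
    have : 0 < d ^ 4 * M := by linarith
    exact (pos_iff_pos_of_mul_pos this).1 (by positivity)
  have hd43 : d ^ 4 * M ≤ d ^ 3 * M := by
    apply mul_le_mul_of_nonneg_right _ hM0.le
    exact pow_le_pow_of_le_one hd.le hd1 (by norm_num)
  have hd41 : d ^ 4 * M ≤ d * M := by
    apply mul_le_mul_of_nonneg_right _ hM0.le
    calc d ^ 4 ≤ d ^ 1 := pow_le_pow_of_le_one hd.le hd1 (by norm_num)
      _ = d := pow_one d
  have hd3 : d ^ 3 ≤ 1 := pow_le_one₀ hd.le hd1
  have hd30 : 0 < d ^ 3 := by positivity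
  -- the general estimate for `r`
  have hr : ∀ x y : ℂ, ‖x‖ ≤ s + d / 2 → ‖y‖ ≤ s + d / 4 → ‖r x y‖ ≤ 16 * M / (d / 4) := by
    intro x y hx hy
    have hball : ∀ z ∈ closedBall y (d / 4), ‖z‖ ≤ s + d / 2 := by
      intro z hz
      have h1 : ‖z - y‖ ≤ d / 4 := by simpa [dist_eq_norm] using hz
      have h2 := norm_add_le (z - y) y
      rw [sub_add_cancel] at h2
      linarith
    apply cauchy_est (f := fun y => p x y) (c := y) (by linarith)
    · intro z hz
      exact (S.py x z (by linarith) (by linarith [hball z hz])).differentiableAt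
    · intro z hz
      exact (hbd x z hx (hball z hz)).1
    · exact S.py x y (by linarith) (by linarith)
  -- the improved estimate where `p` is large
  have himp : ∀ y : ℂ, ‖y‖ = s + d / 4 → M / 2 ≤ ‖p xs y‖ → ‖r xs y‖ ≤ C2 / d ^ 3 := by
    intro y hy hpy
    have hnear : ∀ x ∈ closedBall xs (d / 512), ‖x‖ ≤ s + d / 512 := by
      intro x hx
      have h1 : ‖x - xs‖ ≤ d / 512 := by simpa [dist_eq_norm] using hx
      have h2 := norm_add_le (x - xs) xs
      rw [sub_add_cancel] at h2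
      linarith
    have hq : ∀ x ∈ closedBall xs (d / 512), ‖q x y‖ ≤ (1024 * B + 8192) / d ^ 2 := by
      intro x hx
      have hxn := hnear x hx
      have hball : ∀ z ∈ ball xs (d / 4), ‖z‖ ≤ s + d / 2 := by
        intro z hz
        have h1 : ‖z - xs‖ < d / 4 := by simpa [dist_eq_norm] using hz
        have h2 := norm_add_le (z - xs) xs
        rw [sub_add_cancel] at h2
        linarith
      have hdiff : DifferentiableOn ℂ (fun x => p x y) (ball xs (d / 4)) := by
        intro z hz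
        exact (S.px z y (by linarith [hball z hz]) (by linarith)).differentiableWithinAt
      have hmaps : MapsTo (fun x => p x y) (ball xs (d / 4)) (closedBall (p xs y) (32 * M)) := by
        intro z hz
        simp only [mem_closedBall, dist_eq_norm]
        have h1 := (hbd z y (hball z hz) (by linarith)).1
        have h2 := (hbd xs y (by linarith) (by linarith)).1
        have h3 := norm_sub_le (p z y) (p xs y)
        linarith
      have hxb : x ∈ ball xs (d / 4) := closedBall_subset_ball (by linarith) hx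
      have h1 := Complex.dist_le_div_mul_dist_of_mapsTo_ball hdiff hmaps hxb
      have h2 : dist x xs ≤ d / 512 := hx
      have h3 : 32 * M / (d / 4) * dist x xs ≤ M / 4 := by
        calc 32 * M / (d / 4) * dist x xs ≤ 32 * M / (d / 4) * (d / 512) :=
              mul_le_mul_of_nonneg_left h2 (by positivity)
          _ = M / 4 := by field_simp; ring
      have h4 : M / 4 ≤ ‖p x y‖ := by
        have h5 : ‖p x y - p xs y‖ ≤ M / 4 := by
          rw [← dist_eq_norm]; exact h1.trans h3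
        have h6 := norm_sub_norm_le (p xs y) (p x y)
        rw [norm_sub_rev] at h6
        linarith
      have h7 : d / 8 ≤ ‖x - y‖ := by
        have h8 := norm_sub_norm_le y x
        rw [norm_sub_rev] at h8
        linarith
      have h9 : ‖x - y‖ ≤ 2 := by
        have := norm_sub_le x y
        linarith
      have h10 : d * M / 64 ≤ ‖(x - y) * p x y - a‖ := by
        have h11 := norm_sub_norm_le ((x - y) * p x y) a
        rw [norm_mul, ← hA] at h11
        have h12 : d / 8 * (M / 4) ≤ ‖x - y‖ * ‖p x y‖ :=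
          mul_le_mul h7 h4 (by positivity) (norm_nonneg _)
        linarith
      have h13 : q x y * ((x - y) * p x y - a) = -(b * p x y) - (x - y) * r x y := by
        have := S.eq x y (by linarith) (by linarith)
        linear_combination this
      have h14 : ‖q x y‖ * ‖(x - y) * p x y - a‖ ≤ (16 * B + 128) * M / d := by
        rw [← norm_mul, h13]
        have h15 := norm_sub_le (-(b * p x y)) ((x - y) * r x y)
        rw [norm_neg, norm_mul, norm_mul, ← hB] at h15
        have h16 : B * ‖p x y‖ ≤ B * (16 * M) :=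
          mul_le_mul_of_nonneg_left (hbd x y (by linarith) (by linarith)).1 hB0.le
        have h17 : ‖x - y‖ * ‖r x y‖ ≤ 2 * (16 * M / (d / 4)) :=
          mul_le_mul h9 (hr x y (by linarith) hy.le) (norm_nonneg _) (by norm_num)
        have h18 : B * (16 * M) ≤ 16 * B * M / d := by
          rw [le_div_iff₀ hd]
          have : 0 ≤ 16 * B * M := by positivity
          nlinarith
        have h19 : 2 * (16 * M / (d / 4)) = 128 * M / d := by field_simp; ring
        have h20 : (16 * B + 128) * M / d = 16 * B * M / d + 128 * M / d := by ring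
        linarith
      have h21 : ‖q x y‖ * (d * M / 64) ≤ (16 * B + 128) * M / d :=
        (mul_le_mul_of_nonneg_left h10 (norm_nonneg _)).trans h14
      rw [le_div_iff₀ hd] at h21
      rw [le_div_iff₀ (by positivity)]
      have h22 : (‖q x y‖ * d ^ 2) * M ≤ (1024 * B + 8192) * M := by nlinarith
      exact le_of_mul_le_mul_right h22 hM0
    have h := cauchy_est (f := fun x => q x y) (c := xs) (η := d / 512) (by linarith)
      (fun x hx => (S.qx x y (by linarith [hnear x hx]) (by linarith)).differentiableAt) hq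
      (S.qx xs y (by linarith) (by linarith))
    refine h.trans (le_of_eq ?_)
    rw [hC2]
    field_simp
  -- a starting point on the circle
  have hρ0 : 0 < s + d / 4 := by linarith
  have hdc : ∀ f : ℂ → ℂ, (∀ y : ℂ, ‖y‖ < R → DifferentiableAt ℂ f y) →
      DiffContOnCl ℂ f (ball 0 (s + d / 4)) := by
    intro f hf
    apply DifferentiableOn.diffContOnCl
    rw [closure_ball _ hρ0.ne']
    intro z hz
    have : ‖z‖ ≤ s + d / 4 := by simpa using hz
    exact (hf z (by linarith)).differentiableWithinAt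
  obtain ⟨y1, hy1, hmax⟩ := Complex.exists_mem_frontier_isMaxOn_norm (f := fun y => p xs y)
    (U := ball (0:ℂ) (s + d / 4)) isBounded_ball ⟨0, by simp [hρ0]⟩
    (hdc _ (fun y hy => (S.py xs y (by linarith) hy).differentiableAt))
  rw [frontier_ball _ hρ0.ne'] at hy1
  have hy1n : ‖y1‖ = s + d / 4 := by simpa using hy1
  have hy1M : M ≤ ‖p xs y1‖ := by
    have : ys ∈ closure (ball (0:ℂ) (s + d / 4)) := by
      apply subset_closure
      simp only [mem_ball, dist_zero_right]
      linarith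
    exact hM.trans (hmax this)
  have hy10 : y1 ≠ 0 := by
    intro h
    rw [h, norm_zero] at hy1n
    linarith
  obtain ⟨L, hL⟩ : ∃ L, L = C2 / d ^ 3 := ⟨_, rfl⟩
  have hL0 : 0 < L := by rw [hL]; positivity
  rw [← hL] at himp
  have hLM : 4 * L + 1 ≤ M / 2 := by
    have h1 : L * d ^ 3 = C2 := by rw [hL]; field_simp
    have h2 : (8 * L + 2) * d ^ 3 ≤ M * d ^ 3 := by nlinarith
    have := le_of_mul_le_mul_right h2 hd30
    linarith
  -- `p` is large on the whole circle
  have hcirc : ∀ y : ℂ, ‖y‖ = s + d / 4 → M / 2 ≤ ‖p xs y‖ := by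
    intro y hy
    obtain ⟨θ, hθ⟩ : ∃ θ : ℝ, θ = Complex.arg (y / y1) := ⟨_, rfl⟩
    have hθ4 : |θ| ≤ 4 := by
      rw [hθ]
      exact (Complex.abs_arg_le_pi _).trans Real.pi_le_four
    have hn1 : ‖y / y1‖ = 1 := by
      rw [norm_div, hy, hy1n, div_self hρ0.ne']
    have hye : y1 * Complex.exp ((1:ℝ) * (θ * I)) = y := by
      have := Complex.norm_mul_exp_arg_mul_I (y / y1)
      rw [hn1, ← hθ] at this
      simp only [Complex.ofReal_one, one_mul] at this ⊢
      rw [this]
      field_simp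
    have hnt : ∀ t : ℝ, ‖y1 * Complex.exp (t * (θ * I))‖ = s + d / 4 := by
      intro t
      have : (t:ℂ) * (θ * I) = ((t * θ : ℝ) : ℂ) * I := by push_cast; ring
      rw [norm_mul, this, Complex.norm_exp_ofReal_mul_I, mul_one, hy1n]
    have hder : ∀ t : ℝ, HasDerivAt (fun t : ℝ => p xs (y1 * Complex.exp (t * (θ * I))) - p xs y1)
        (r xs (y1 * Complex.exp (t * (θ * I))) * (y1 * (Complex.exp (t * (θ * I)) * (1 * (θ * I))))) t := by
      intro t
      apply HasDerivAt.sub_const
      have h1 : HasDerivAt (fun t : ℝ => y1 * Complex.exp (t * (θ * I)))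
          (y1 * (Complex.exp (t * (θ * I)) * (1 * (θ * I)))) t := by
        apply HasDerivAt.const_mul
        apply HasDerivAt.cexp
        apply HasDerivAt.mul_const
        exact Complex.ofRealCLM.hasDerivAt
      exact (S.py xs _ (by linarith) (by rw [hnt t]; linarith)).comp_of_eq t h1 rfl
    have hfence := image_norm_le_of_norm_deriv_right_lt_deriv_boundary (a := 0) (b := 1)
      (f := fun t : ℝ => p xs (y1 * Complex.exp (t * (θ * I))) - p xs y1)
      (fun t _ => (hder t).continuousAt.continuousWithinAt)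
      (fun t _ => (hder t).hasDerivWithinAt)
      (B := fun t => (4 * L + 1) * t) (B' := fun _ => (4 * L + 1) * 1) (by simp)
      (fun t => (hasDerivAt_id t).const_mul (4 * L + 1))
      (by
        intro t ht hEq
        have h1 : (4 * L + 1) * t ≤ M / 2 := by nlinarith [ht.1, ht.2]
        have h2 : M / 2 ≤ ‖p xs (y1 * Complex.exp (t * (θ * I)))‖ := by
          have h3 := norm_sub_norm_le (p xs y1) (p xs (y1 * Complex.exp (t * (θ * I))))
          rw [norm_sub_rev] at h3
          linarith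
        have h4 := himp _ (hnt t) h2
        have h5 : ‖y1 * (Complex.exp (t * (θ * I)) * (1 * (θ * I)))‖ ≤ 4 := by
          rw [← mul_assoc, norm_mul, hnt t]
          have h6 : ‖(1:ℂ) * (θ * I)‖ = |θ| := by simp
          rw [h6]
          have : s + d / 4 ≤ 1 := by linarith
          nlinarith [abs_nonneg θ]
        rw [norm_mul]
        have h7 := mul_le_mul h4 h5 (norm_nonneg _) hL0.le
        linarith)
      (x := 1) ⟨by norm_num, le_rfl⟩
    rw [hye] at hfence
    have h3 := norm_sub_norm_le (p xs y1) (p xs y)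
    rw [norm_sub_rev] at h3
    linarith
  -- the maximum principle
  have hfin := Complex.norm_le_of_forall_mem_frontier_norm_le
    (f := fun y => (xs - y) * q xs y + b) (U := ball (0:ℂ) (s + d / 4)) isBounded_ball
    (hdc _ (fun y hy => by
      have := S.qy xs y (by linarith) hy
      fun_prop))
    (C := 16 * (4 * C2 + A * B) / (d ^ 4 * M))
    (by
      intro y hy
      rw [frontier_ball _ hρ0.ne'] at hy
      have hyn : ‖y‖ = s + d / 4 := by simpa using hy
      have h4 := hcirc y hyn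
      have h5 := himp y hyn h4
      have h7 : d / 4 ≤ ‖xs - y‖ := by
        have h8 := norm_sub_norm_le y xs
        rw [norm_sub_rev] at h8
        linarith
      have h9 : ‖xs - y‖ ≤ 2 := by
        have := norm_sub_le xs y
        linarith
      have h10 : d * M / 16 ≤ ‖(xs - y) * p xs y - a‖ := by
        have h11 := norm_sub_norm_le ((xs - y) * p xs y) a
        rw [norm_mul, ← hA] at h11
        have h12 : d / 4 * (M / 2) ≤ ‖xs - y‖ * ‖p xs y‖ :=
          mul_le_mul h7 h4 (by positivity) (norm_nonneg _)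
        have : 0 < d * M := by positivity
        linarith
      have h13 : ((xs - y) * q xs y + b) * ((xs - y) * p xs y - a) =
          -((xs - y) * (xs - y) * r xs y) - a * b := by
        have := S.eq xs y (by linarith) (by linarith)
        linear_combination (xs - y) * this
      have h14 : ‖(xs - y) * q xs y + b‖ * ‖(xs - y) * p xs y - a‖ ≤ 4 * L + A * B := by
        rw [← norm_mul, h13]
        have h15 := norm_sub_le (-((xs - y) * (xs - y) * r xs y)) (a * b)
        rw [norm_neg, norm_mul, norm_mul, norm_mul, ← hA, ← hB] at h15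
        have h16 : ‖xs - y‖ * ‖xs - y‖ ≤ 2 * 2 := mul_le_mul h9 h9 (norm_nonneg _) (by norm_num)
        have h17 := mul_le_mul h16 h5 (norm_nonneg _) (by norm_num)
        linarith
      have h21 : ‖(xs - y) * q xs y + b‖ * (d * M / 16) ≤ 4 * L + A * B :=
        (mul_le_mul_of_nonneg_left h10 (norm_nonneg _)).trans h14
      rw [le_div_iff₀ (by positivity)]
      have h1 : L * d ^ 3 = C2 := by rw [hL]; field_simp
      have h22 := mul_le_mul_of_nonneg_right h21 hd30.le
      have h23 : A * B * d ^ 3 ≤ A * B := by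
        have : 0 ≤ A * B := by positivity
        nlinarith
      nlinarith)
    (z := xs) (subset_closure (by simp only [mem_ball, dist_zero_right]; linarith))
  simp only [sub_self, zero_mul, zero_add] at hfin
  rw [← hB, le_div_iff₀ (by positivity)] at hfin
  rw [div_lt_iff₀ hB0] at hK3
  nlinarith

/-- The a priori estimate. -/
lemma EPD.bound {R : ℝ} {a b : ℂ} {p q r : ℂ → ℂ → ℂ} (S : EPD R a b p q r) (ha : a ≠ 0)
    (hb : b ≠ 0) (hR : R ≤ 1) {s R' : ℝ} (hsR : s < R') (hR' : R' < R) {x y : ℂ} (hx : ‖x‖ ≤ s)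
    (hy : ‖y‖ ≤ s) :
    ‖q x y‖ ≤ max (K0 ‖a‖ ‖b‖) (K0 ‖b‖ ‖a‖) / (R' - s) ^ 4 := by
  have hs0 : 0 ≤ s := (norm_nonneg _).trans hx
  have hKc : IsCompact (closedBall (0:ℂ) R' ×ˢ closedBall (0:ℂ) R') :=
    (isCompact_closedBall _ _).prod (isCompact_closedBall _ _)
  have hsub : closedBall (0:ℂ) R' ×ˢ closedBall (0:ℂ) R' ⊆ ball 0 R ×ˢ ball 0 R :=
    Set.prod_mono (closedBall_subset_ball hR') (closedBall_subset_ball hR')
  have hcont : ContinuousOn (fun z : ℂ × ℂ =>
      (R' - max ‖z.1‖ ‖z.2‖) ^ 4 * max ‖p z.1 z.2‖ ‖q z.1 z.2‖)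
      (closedBall (0:ℂ) R' ×ˢ closedBall (0:ℂ) R') := by
    apply ContinuousOn.mul
    · fun_prop
    · exact ((S.cp.mono hsub).norm).sup ((S.cq.mono hsub).norm)
  have hmem : ∀ u v : ℂ, ‖u‖ ≤ R' → ‖v‖ ≤ R' →
      (u, v) ∈ closedBall (0:ℂ) R' ×ˢ closedBall (0:ℂ) R' := by
    intro u v hu hv
    simp only [Set.mem_prod, mem_closedBall, dist_zero_right]
    exact ⟨hu, hv⟩
  obtain ⟨⟨xs, ys⟩, hz, hmax⟩ := hKc.exists_isMaxOn ⟨(x, y), hmem x y (by linarith) (by linarith)⟩ hcont
  simp only [Set.mem_prod, mem_closedBall, dist_zero_right] at hz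
  obtain ⟨t, ht⟩ : ∃ t, t = max ‖xs‖ ‖ys‖ := ⟨_, rfl⟩
  obtain ⟨M, hM⟩ : ∃ M, M = max ‖p xs ys‖ ‖q xs ys‖ := ⟨_, rfl⟩
  have htR : t ≤ R' := by rw [ht]; exact max_le hz.1 hz.2
  have ht0 : 0 ≤ t := by rw [ht]; exact (norm_nonneg _).trans (le_max_left _ _)
  have hM0 : 0 ≤ M := by rw [hM]; exact (norm_nonneg _).trans (le_max_left _ _)
  have hmax' : ∀ u v : ℂ, ‖u‖ ≤ R' → ‖v‖ ≤ R' →
      (R' - max ‖u‖ ‖v‖) ^ 4 * max ‖p u v‖ ‖q u v‖ ≤ (R' - t) ^ 4 * M := by
    intro u v hu hv
    have := hmax (hmem u v hu hv)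
    simp only [Set.mem_ofPred_eq] at this
    rw [ht, hM]
    exact this
  have hK0 : 0 ≤ K0 ‖a‖ ‖b‖ := by unfold K0; positivity
  have key : (R' - t) ^ 4 * M ≤ max (K0 ‖a‖ ‖b‖) (K0 ‖b‖ ‖a‖) := by
    rcases eq_or_lt_of_le htR with h | h
    · rw [h]
      simp only [sub_self, ne_eq, OfNat.ofNat_ne_zero, not_false_eq_true, zero_pow, zero_mul]
      exact hK0.trans (le_max_left _ _)
    · have hbd : ∀ u v : ℂ, ‖u‖ ≤ t + (R' - t) / 2 → ‖v‖ ≤ t + (R' - t) / 2 →
          ‖p u v‖ ≤ 16 * M ∧ ‖q u v‖ ≤ 16 * M := by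
        intro u v hu hv
        have h1 := hmax' u v (by linarith) (by linarith)
        have h2 : (R' - t) / 2 ≤ R' - max ‖u‖ ‖v‖ := by
          have := max_le hu hv
          linarith
        have h3 : ((R' - t) / 2) ^ 4 ≤ (R' - max ‖u‖ ‖v‖) ^ 4 :=
          pow_le_pow_left₀ (by linarith) h2 4
        have h4 : 0 ≤ max ‖p u v‖ ‖q u v‖ := (norm_nonneg _).trans (le_max_left _ _)
        have h5 := (mul_le_mul_of_nonneg_right h3 h4).trans h1
        have h6 : 0 < (R' - t) ^ 4 := by
          have : 0 < R' - t := by linarith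
          positivity
        have h7 : (R' - t) ^ 4 * max ‖p u v‖ ‖q u v‖ ≤ (R' - t) ^ 4 * (16 * M) := by nlinarith
        have h8 := le_of_mul_le_mul_left h7 h6
        exact ⟨(le_max_left _ _).trans h8, (le_max_right _ _).trans h8⟩
      have hxs : ‖xs‖ ≤ t := by rw [ht]; exact le_max_left _ _
      have hys : ‖ys‖ ≤ t := by rw [ht]; exact le_max_right _ _
      rcases le_total ‖p xs ys‖ ‖q xs ys‖ with h1 | h1
      · rw [max_eq_right h1] at hM
        refine le_trans ?_ (le_max_right _ _)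
        exact S.symm.half ha hR ht0 (by linarith) (by linarith)
          (fun u v hu hv => (hbd v u hv hu).symm) hys hxs hM.le
      · rw [max_eq_left h1] at hM
        refine le_trans ?_ (le_max_left _ _)
        exact S.half hb hR ht0 (by linarith) (by linarith) hbd hxs hys hM.le
  have h1 := hmax' x y (by linarith) (by linarith)
  have h2 : R' - s ≤ R' - max ‖x‖ ‖y‖ := by
    have := max_le hx hy
    linarith
  have h3 : (R' - s) ^ 4 ≤ (R' - max ‖x‖ ‖y‖) ^ 4 := pow_le_pow_left₀ (by linarith) h2 4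
  have h6 : 0 < (R' - s) ^ 4 := by
    have : 0 < R' - s := by linarith
    positivity
  rw [le_div_iff₀ h6]
  have h4 : ‖q x y‖ * (R' - s) ^ 4 ≤ max ‖p x y‖ ‖q x y‖ * (R' - max ‖x‖ ‖y‖) ^ 4 :=
    mul_le_mul (le_max_right _ _) h3 h6.le ((norm_nonneg _).trans (le_max_left _ _))
  linarith

end Pool.Agent.H837Z.Normal
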