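import Mathlib

set_option autoImplicit false

namespace Pool.Agent.H837Z.Normal

/-- The `n`-th Taylor coefficient of `f` at the origin. -/
noncomputable def taylorCoeff (f : ℂ → ℂ) (n : ℕ) : ℂ :=
  iteratedDeriv n f 0 / (n.factorial : ℂ)

/-- The Hadamard convolution `(f * g)(z) = ∑ a_n b_n z^n`. -/
noncomputable def hadamard (f g : ℂ → ℂ) (z : ℂ) : ℂ :=
  ∑' n : ℕ, taylorCoeff f n * taylorCoeff g n * z ^ n

/-- The kernel `(1 + x w)^α / (1 - w)^β` (principal powers, equal to `1` at `w = 0`). -/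
noncomputable def kernel (α β : ℝ) (x : ℂ) : ℂ → ℂ :=
  fun w => (1 + x * w) ^ (α : ℂ) / (1 - w) ^ (β : ℂ)

/-- The class `T(α, β)`. -/
def classT (α β : ℝ) : Set (ℂ → ℂ) :=
  {φ | DifferentiableOn ℂ φ (Metric.ball 0 1) ∧ φ 0 = 1 ∧
    ∀ x : ℂ, ‖x‖ = 1 → ∀ z ∈ Metric.ball (0 : ℂ) 1, hadamard φ (kernel α β x) z ≠ 0}

end Pool.Agent.H837Z.Normal
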