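import Mathlib
import Pool.Agent.S05817
import Pool.Agent.H837Z.NormalCore
import Pool.Agent.H837Z.NormalDefs

set_option autoImplicit false
open Complex Set Metric Filter Topology
open Pool.Agent.S05817

namespace Pool.Agent.H837Z.Normal

/-- One half of the extension of non-vanishing from the cone to the bidisc. -/
lemma nonvanish_half {G : ℂ → ℂ → ℂ} {ρ t : ℝ}
    (hc : ContinuousOn (fun z : ℂ × ℂ => G z.1 z.2) (ball 0 ρ ×ˢ ball 0 ρ))
    (hx : ∀ x y : ℂ, ‖x‖ < ρ → ‖y‖ < ρ → DifferentiableAt ℂ (fun x => G x y) x)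
    (hN : ∀ x y : ℂ, ‖x‖ = ‖y‖ → ‖x‖ < ρ → G x y ≠ 0) (htρ : t < ρ)
    (hin : ∀ x y : ℂ, ‖x‖ < t → ‖y‖ < t → G x y ≠ 0) {x y : ℂ} (hxt : ‖x‖ < t) (hyt : ‖y‖ = t) :
    G x y ≠ 0 := by
  intro h0
  have ht0 : 0 < t := lt_of_le_of_lt (norm_nonneg _) hxt
  have hdiff : ∀ v : ℂ, ‖v‖ < ρ → DifferentiableOn ℂ (fun u => G u v) (ball 0 ρ) := by
    intro v hv u hu
    exact (hx u v (by simpa using hu) hv).differentiableWithinAt
  have hsub : ball (0:ℂ) t ⊆ ball 0 ρ := ball_subset_ball htρ.le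
  have hev := hurwitz (f := fun u => G u y) (U := ball 0 t) (y := x) isOpen_ball (by simpa using hxt)
    ((hdiff y (by linarith)).mono hsub) h0 ?_
  · have han : AnalyticOnNhd ℂ (fun u => G u y) (ball 0 ρ) :=
      (hdiff y (by linarith)).analyticOnNhd isOpen_ball
    have := han.eqOn_zero_of_preconnected_of_eventuallyEq_zero
      (convex_ball (0:ℂ) ρ).isPreconnected (z₀ := x) (by simp; linarith) hev
    exact hN y y rfl (by linarith) (this (by simp; linarith))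
  · intro K hK hKc ε hε
    have h1 : ∀ᶠ τ : ℝ in 𝓝 (1:ℝ), ∀ z ∈ K, ‖G z ((τ:ℂ) * y) - G z y‖ < ε := by
      apply hKc.eventually_forall_of_forall_eventually
      intro z hz
      have hzρ : z ∈ ball (0:ℂ) ρ := hsub (hK hz)
      have hyρ : y ∈ ball (0:ℂ) ρ := by simp; linarith
      have hca : ContinuousAt (fun w : ℂ × ℂ => G w.1 w.2) (z, y) :=
        hc.continuousAt ((isOpen_ball.prod isOpen_ball).mem_nhds ⟨hzρ, hyρ⟩)
      have hc1 : ContinuousAt (fun w : ℝ × ℂ => G w.2 ((w.1:ℂ) * y)) (1, z) := by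
        have hm : ContinuousAt (fun w : ℝ × ℂ => ((w.2, (w.1:ℂ) * y) : ℂ × ℂ)) (1, z) := by
          fun_prop
        exact ContinuousAt.comp_of_eq hca hm (by simp)
      have hc2 : ContinuousAt (fun w : ℝ × ℂ => G w.2 y) (1, z) := by
        have hm : ContinuousAt (fun w : ℝ × ℂ => ((w.2, y) : ℂ × ℂ)) (1, z) := by
          fun_prop
        exact ContinuousAt.comp_of_eq hca hm (by simp)
      have hcc : ContinuousAt (fun w : ℝ × ℂ => ‖G w.2 ((w.1:ℂ) * y) - G w.2 y‖) (1, z) :=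
        (hc1.sub hc2).norm
      apply hcc.eventually_lt continuousAt_const
      simpa using hε
    have h2 : Ioo (0:ℝ) 1 ∈ 𝓝[<] (1:ℝ) := Ioo_mem_nhdsLT (by norm_num)
    obtain ⟨τ, hτ1, hτ2⟩ := ((h1.filter_mono nhdsWithin_le_nhds).and h2).exists
    have hτy : ‖(τ:ℂ) * y‖ < t := by
      rw [norm_mul, Complex.norm_real, Real.norm_of_nonneg hτ2.1.le, hyt]
      nlinarith [hτ2.1, hτ2.2]
    refine ⟨fun u => G u ((τ:ℂ) * y), (hdiff _ (by linarith)).mono hsub, ?_, hτ1⟩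
    intro z hz
    exact hin z _ (by simpa using hz) hτy

lemma nonvanish {G : ℂ → ℂ → ℂ} {ρ : ℝ}
    (hc : ContinuousOn (fun z : ℂ × ℂ => G z.1 z.2) (ball 0 ρ ×ˢ ball 0 ρ))
    (hx : ∀ x y : ℂ, ‖x‖ < ρ → ‖y‖ < ρ → DifferentiableAt ℂ (fun x => G x y) x)
    (hy : ∀ x y : ℂ, ‖x‖ < ρ → ‖y‖ < ρ → DifferentiableAt ℂ (fun y => G x y) y)
    (hN : ∀ x y : ℂ, ‖x‖ = ‖y‖ → ‖x‖ < ρ → G x y ≠ 0) {x y : ℂ} (hxρ : ‖x‖ < ρ) (hyρ : ‖y‖ < ρ) :
    G x y ≠ 0 := by
  intro h0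
  obtain ⟨m, hm⟩ : ∃ m, m = max ‖x‖ ‖y‖ := ⟨_, rfl⟩
  have hmρ : m < ρ := by rw [hm]; exact max_lt hxρ hyρ
  have hKc : IsCompact (closedBall (0:ℂ) m ×ˢ closedBall (0:ℂ) m) :=
    (isCompact_closedBall _ _).prod (isCompact_closedBall _ _)
  have hsub : closedBall (0:ℂ) m ×ˢ closedBall (0:ℂ) m ⊆ ball 0 ρ ×ˢ ball 0 ρ :=
    Set.prod_mono (closedBall_subset_ball hmρ) (closedBall_subset_ball hmρ)
  have hZ : IsCompact ((closedBall (0:ℂ) m ×ˢ closedBall (0:ℂ) m) ∩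
      (fun z : ℂ × ℂ => G z.1 z.2) ⁻¹' {0}) :=
    hKc.of_isClosed_subset
      ((hc.mono hsub).preimage_isClosed_of_isClosed hKc.isClosed isClosed_singleton)
      inter_subset_left
  obtain ⟨⟨u, v⟩, huv, hmin⟩ := hZ.exists_isMinOn
    ⟨(x, y), ⟨by simp [hm], by simpa using h0⟩⟩
    (f := fun z : ℂ × ℂ => max ‖z.1‖ ‖z.2‖) (by fun_prop)
  obtain ⟨huv1, huv2⟩ := huv
  simp only [Set.mem_prod, mem_closedBall, dist_zero_right] at huv1
  have hG0 : G u v = 0 := by simpa using huv2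
  obtain ⟨t, ht⟩ : ∃ t, t = max ‖u‖ ‖v‖ := ⟨_, rfl⟩
  have htm : t ≤ m := by rw [ht]; exact max_le huv1.1 huv1.2
  have hin : ∀ x y : ℂ, ‖x‖ < t → ‖y‖ < t → G x y ≠ 0 := by
    intro x' y' hx' hy' hz
    have hmem : (x', y') ∈ (closedBall (0:ℂ) m ×ˢ closedBall (0:ℂ) m) ∩
        (fun z : ℂ × ℂ => G z.1 z.2) ⁻¹' {0} := by
      refine ⟨?_, by simpa using hz⟩
      simp only [Set.mem_prod, mem_closedBall, dist_zero_right]
      exact ⟨by linarith, by linarith⟩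
    have h1 := hmin hmem
    simp only [Set.mem_ofPred_eq] at h1
    rw [← ht] at h1
    have := max_lt hx' hy'
    linarith
  rcases lt_trichotomy ‖u‖ ‖v‖ with h | h | h
  · rw [max_eq_right h.le] at ht
    exact nonvanish_half hc hx hN (t := t) (by linarith) hin (by linarith) ht.symm hG0
  · exact hN u v h (by linarith [huv1.1]) hG0
  · rw [max_eq_left h.le] at ht
    exact nonvanish_half (G := fun x y => G y x)
      (hc.comp (f := Prod.swap) continuous_swap.continuousOn (fun _ hz => ⟨hz.2, hz.1⟩))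
      (fun x y hx' hy' => hy y x hy' hx') (fun x y h1 h2 => hN y x h1.symm (h1 ▸ h2))
      (t := t) (by linarith) (fun x y h1 h2 => hin y x h2 h1) (x := v) (y := u) (by linarith)
      ht.symm hG0

section

variable {h zz : ℝ → ℂ} {ρ : ℝ}

lemma mkEPD (hh : Continuous h) (hzc : Continuous zz) (hz : ∀ τ, ‖zz τ‖ * ρ ≤ 1) (a b : ℂ)
    (hG : ∀ x y : ℂ, ‖x‖ < ρ → ‖y‖ < ρ → Gf h zz a b x y ≠ 0) :
    EPD ρ a b
      (fun x y => a * Gf (fun τ => h τ * zz τ) zz (a - 1) b x y / Gf h zz a b x y)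
      (fun x y => b * Gf (fun τ => h τ * zz τ) zz a (b - 1) x y / Gf h zz a b x y)
      (fun x y => (a * b * Gf (fun τ => h τ * zz τ * zz τ) zz (a - 1) (b - 1) x y * Gf h zz a b x y
        - a * Gf (fun τ => h τ * zz τ) zz (a - 1) b x y *
          (b * Gf (fun τ => h τ * zz τ) zz a (b - 1) x y)) / Gf h zz a b x y ^ 2) := by
  have hhz : Continuous (fun τ => h τ * zz τ) := hh.mul hzc
  have hm : ∀ {x : ℂ}, ‖x‖ < ρ → x ∈ ball (0:ℂ) ρ := fun hx => by simpa using hx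
  have hG' : ∀ z ∈ ball (0:ℂ) ρ ×ˢ ball (0:ℂ) ρ, Gf h zz a b z.1 z.2 ≠ 0 := by
    intro z hz'
    exact hG z.1 z.2 (by simpa using hz'.1) (by simpa using hz'.2)
  refine ⟨?_, ?_, ?_, ?_, ?_, ?_, ?_⟩
  · exact (continuousOn_const.mul (Gf_cont2 hhz hzc hz _ _)).div (Gf_cont2 hh hzc hz _ _) hG'
  · exact (continuousOn_const.mul (Gf_cont2 hhz hzc hz _ _)).div (Gf_cont2 hh hzc hz _ _) hG'
  · intro x y hx hy
    exact (((Gf_deriv_x hhz hzc hz (a - 1) b (hm hx) (hm hy)).const_mul a).div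
      (Gf_deriv_x hh hzc hz a b (hm hx) (hm hy)) (hG x y hx hy)).differentiableAt
  · intro x y hx hy
    have := ((Gf_deriv_y hhz hzc hz (a - 1) b (hm hx) (hm hy)).const_mul a).div
      (Gf_deriv_y hh hzc hz a b (hm hx) (hm hy)) (hG x y hx hy)
    refine this.congr_deriv ?_
    ring
  · intro x y hx hy
    have := ((Gf_deriv_x hhz hzc hz a (b - 1) (hm hx) (hm hy)).const_mul b).div
      (Gf_deriv_x hh hzc hz a b (hm hx) (hm hy)) (hG x y hx hy)
    refine this.congr_deriv ?_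
    ring
  · intro x y hx hy
    exact (((Gf_deriv_y hhz hzc hz a (b - 1) (hm hx) (hm hy)).const_mul b).div
      (Gf_deriv_y hh hzc hz a b (hm hx) (hm hy)) (hG x y hx hy)).differentiableAt
  · intro x y hx hy
    have r1 := Gf_rel_x hhz hzc hz (a - 1) (b - 1) (hm hx) (hm hy)
    have r2 := Gf_rel_y hhz hzc hz (a - 1) (b - 1) (hm hx) (hm hy)
    rw [sub_add_cancel] at r1 r2
    have hne := hG x y hx hy
    field_simp
    rw [r1, r2]
    ring_nf

lemma iter_Gf (hzc : Continuous zz) (hz : ∀ τ, ‖zz τ‖ * ρ ≤ 1) (hρ : 0 < ρ) (a : ℂ) (n : ℕ) :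
    ∀ (h : ℝ → ℂ) (_ : Continuous h) (b : ℂ), iteratedDeriv n (fun y => Gf h zz a b 0 y) 0 =
      (∏ i ∈ Finset.range n, (b - i)) * ∫ τ in (0:ℝ)..(2 * Real.pi), h τ * zz τ ^ n := by
  induction n with
  | zero =>
    intro h _ b
    simp [Gf]
  | succ n ih =>
    intro h hh b
    rw [iteratedDeriv_succ']
    have hev : deriv (fun y => Gf h zz a b 0 y) =ᶠ[𝓝 0]
        fun y => b * Gf (fun τ => h τ * zz τ) zz a (b - 1) 0 y := by
      filter_upwards [ball_mem_nhds (0:ℂ) hρ] with y hy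
      exact (Gf_deriv_y hh hzc hz a b (mem_ball_self hρ) hy).deriv
    have ih' := ih (fun τ => h τ * zz τ) (hh.mul hzc) (b - 1)
    rw [hev.iteratedDeriv_eq, iteratedDeriv_const_mul_field, ih', Finset.prod_range_succ']
    have e1 : ∏ i ∈ Finset.range n, (b - 1 - (i:ℂ)) =
        ∏ i ∈ Finset.range n, (b - ((i + 1 : ℕ) : ℂ)) := by
      apply Finset.prod_congr rfl
      intro i _
      push_cast
      ring
    have e2 : (fun τ => h τ * zz τ * zz τ ^ n) = fun τ => h τ * zz τ ^ (n + 1) := by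
      funext τ
      ring
    rw [e1, e2]
    simp only [Nat.cast_zero, sub_zero]
    ring

end

lemma fact_le_prod {β : ℝ} (hβ : 1 ≤ β) (n : ℕ) :
    (n.factorial : ℝ) ≤ ‖∏ i ∈ Finset.range n, (-(β:ℂ) - i)‖ := by
  induction n with
  | zero => simp
  | succ n ih =>
    rw [Finset.prod_range_succ, norm_mul, Nat.factorial_succ]
    have h1 : ((n:ℝ) + 1) ≤ ‖-(β:ℂ) - n‖ := by
      have : -(β:ℂ) - n = ((-(β + n) : ℝ) : ℂ) := by push_cast; ring
      rw [this, Complex.norm_real, Real.norm_eq_abs, abs_neg, abs_of_nonneg (by positivity)]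
      linarith
    push_cast
    rw [mul_comm]
    exact mul_le_mul ih h1 (by positivity) (norm_nonneg _)

/-- Uniform coefficient bounds in the class. -/
lemma coeff_bound {α β : ℝ} (hα : 1 ≤ α) (hβ : 1 ≤ β) {s : ℝ} (hs0 : 0 < s) (hs1 : s < 1) :
    ∃ C : ℝ, ∀ φ ∈ classT α β, ∀ n : ℕ, ‖taylorCoeff φ n‖ ≤ C / s ^ n := by
  obtain ⟨R', hsR, hR1⟩ := exists_between hs1
  obtain ⟨ρ, hRρ, hρ1⟩ := exists_between hR1
  have hρ0 : 0 < ρ := by linarith
  obtain ⟨K, hK⟩ : ∃ K, K = max (K0 ‖(α:ℂ)‖ ‖-(β:ℂ)‖) (K0 ‖-(β:ℂ)‖ ‖(α:ℂ)‖) / (R' - s) ^ 4 :=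
    ⟨_, rfl⟩
  refine ⟨Real.exp K, ?_⟩
  rintro φ ⟨hφ, hφ0, H⟩ n
  have hcm : ∀ τ : ℝ, ‖circleMap 0 ρ τ‖ = ρ := by
    intro τ; simp [abs_of_pos hρ0]
  have hφc : Continuous (fun τ : ℝ => φ (circleMap 0 ρ τ)) := by
    apply (hφ.continuousOn).comp_continuous (continuous_circleMap 0 ρ)
    intro τ
    simp only [mem_ball, dist_zero_right, hcm τ, hρ1]
  have hcmc : Continuous (fun τ : ℝ => (circleMap 0 ρ τ)⁻¹) := by
    apply (continuous_circleMap 0 ρ).inv₀
    intro τ h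
    have := hcm τ
    rw [h, norm_zero] at this
    linarith
  have hzz : ∀ τ : ℝ, ‖(circleMap 0 ρ τ)⁻¹‖ * ρ ≤ 1 := by
    intro τ
    rw [norm_inv, hcm τ, inv_mul_cancel₀ hρ0.ne']
  have link : ∀ x' z' : ℂ, ‖x'‖ = 1 → ‖z'‖ < ρ →
      hadamard φ (kernel α β x') z' = (2 * Real.pi : ℂ)⁻¹ *
        Gf (fun τ => φ (circleMap 0 ρ τ)) (fun τ => (circleMap 0 ρ τ)⁻¹) α (-(β:ℂ))
          (x' * z') (-z') := by
    intro x' z' hx' hz'
    have hker : kernel α β x' = fun w : ℂ => (1 + x' * w) ^ (α:ℂ) * (1 - w) ^ (-(β:ℂ)) := by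
      funext w
      rw [kernel, Complex.cpow_neg, div_eq_mul_inv]
    have hk : DifferentiableOn ℂ (fun w : ℂ => (1 + x' * w) ^ (α:ℂ) * (1 - w) ^ (-(β:ℂ)))
        (ball 0 1) := by
      intro w hw
      have hw' : ‖w‖ < 1 := by simpa using hw
      have s1 : 1 + x' * w ∈ Complex.slitPlane := by
        apply Complex.mem_slitPlane_of_norm_lt_one
        rw [norm_mul, hx', one_mul]; exact hw'
      have s2 : 1 - w ∈ Complex.slitPlane := by
        rw [sub_eq_add_neg]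
        apply Complex.mem_slitPlane_of_norm_lt_one
        rw [norm_neg]; exact hw'
      apply DifferentiableAt.differentiableWithinAt
      apply DifferentiableAt.mul
      · exact DifferentiableAt.cpow_const (by fun_prop) s1
      · exact DifferentiableAt.cpow_const (by fun_prop) s2
    unfold hadamard taylorCoeff
    rw [hker, reprSum hφ hk hρ0 hρ1 hz']
    unfold Gf
    congr 2
    funext τ
    have e1 : 1 + x' * z' * (circleMap 0 ρ τ)⁻¹ = 1 + x' * (z' * (circleMap 0 ρ τ)⁻¹) := by ring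
    have e2 : 1 + -z' * (circleMap 0 ρ τ)⁻¹ = 1 - z' * (circleMap 0 ρ τ)⁻¹ := by ring
    rw [e1, e2, mul_assoc]
  have hN : ∀ X Y : ℂ, ‖X‖ = ‖Y‖ → ‖X‖ < ρ →
      Gf (fun τ => φ (circleMap 0 ρ τ)) (fun τ => (circleMap 0 ρ τ)⁻¹) α (-(β:ℂ)) X Y ≠ 0 := by
    intro X Y hXY hXρ hzero
    by_cases hY : Y = 0
    · have hX : X = 0 := by
        rw [hY, norm_zero, norm_eq_zero] at hXY
        exact hXY
      have h1 := H 1 (by simp) 0 (by simp)
      rw [link 1 0 (by simp) (by simp [hρ0])] at h1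
      apply h1
      rw [hX, hY] at hzero
      rw [mul_zero, neg_zero, hzero, mul_zero]
    · have hYn : ‖Y‖ ≠ 0 := norm_ne_zero_iff.2 hY
      have hx1 : ‖-X / Y‖ = 1 := by
        rw [norm_div, norm_neg, hXY, div_self hYn]
      have h1 := H (-X / Y) hx1 (-Y) (by
        simp only [mem_ball, dist_zero_right, norm_neg, ← hXY]; linarith)
      rw [link (-X / Y) (-Y) hx1 (by rw [norm_neg, ← hXY]; exact hXρ)] at h1
      apply h1
      have e1 : -X / Y * -Y = X := by field_simp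
      rw [e1, neg_neg, hzero, mul_zero]
  have hm : ∀ {x : ℂ}, ‖x‖ < ρ → x ∈ ball (0:ℂ) ρ := fun hx => by simpa using hx
  obtain ⟨h, hhdef⟩ : ∃ h : ℝ → ℂ, h = fun τ => φ (circleMap 0 ρ τ) := ⟨_, rfl⟩
  obtain ⟨zz, hzdef⟩ : ∃ zz : ℝ → ℂ, zz = fun τ => (circleMap 0 ρ τ)⁻¹ := ⟨_, rfl⟩
  have hcoef : ∀ k : ℕ, ∫ τ in (0:ℝ)..(2 * Real.pi), h τ * zz τ ^ k =
      2 * Real.pi * taylorCoeff φ k := by
    intro k
    rw [hhdef, hzdef]
    exact coef hφ hρ0 hρ1 k
  have hzz' : ∀ τ, ‖zz τ‖ * ρ ≤ 1 := by rw [hzdef]; exact hzz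
  rw [← hhdef] at hφc
  rw [← hzdef] at hcmc
  rw [← hhdef, ← hzdef] at hN
  have hG : ∀ x y : ℂ, ‖x‖ < ρ → ‖y‖ < ρ → Gf h zz α (-(β:ℂ)) x y ≠ 0 := by
    intro x y hx hy
    exact nonvanish (G := fun x y => Gf h zz α (-(β:ℂ)) x y) (Gf_cont2 hφc hcmc hzz' _ _)
      (fun x y hx hy => (Gf_deriv_x hφc hcmc hzz' _ _ (hm hx) (hm hy)).differentiableAt)
      (fun x y hx hy => (Gf_deriv_y hφc hcmc hzz' _ _ (hm hx) (hm hy)).differentiableAt)
      hN hx hy
  have S := mkEPD hφc hcmc hzz' α (-(β:ℂ)) hG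
  have ha : (α:ℂ) ≠ 0 := by
    rw [Ne, Complex.ofReal_eq_zero]; linarith
  have hb : -(β:ℂ) ≠ 0 := by
    rw [neg_ne_zero, Ne, Complex.ofReal_eq_zero]; linarith
  have hq : ∀ y : ℂ, ‖y‖ ≤ s →
      ‖-(β:ℂ) * Gf (fun τ => h τ * zz τ) zz α (-(β:ℂ) - 1) 0 y‖ ≤ K * ‖Gf h zz α (-(β:ℂ)) 0 y‖ := by
    intro y hy
    have := S.bound ha hb hρ1.le hsR hRρ (x := 0) (y := y) (by simpa using hs0.le) hy
    rw [← hK, norm_div, div_le_iff₀ (norm_pos_iff.2 (hG 0 y (by simpa using hρ0) (by linarith)))]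
      at this
    exact this
  have hK0 : 0 ≤ K := by
    rw [hK]
    apply div_nonneg
    · refine le_trans ?_ (le_max_left _ _)
      unfold K0
      positivity
    · have : 0 < R' - s := by linarith
      positivity
  have h00 : ‖Gf h zz α (-(β:ℂ)) 0 0‖ = 2 * Real.pi := by
    have e : Gf h zz α (-(β:ℂ)) 0 0 = ∫ τ in (0:ℝ)..(2 * Real.pi), h τ * zz τ ^ 0 := by
      unfold Gf
      congr 1
      funext τ
      simp
    rw [e, hcoef 0]
    simp [taylorCoeff, hφ0, abs_of_pos Real.pi_pos]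
  have hgr : ∀ y : ℂ, ‖y‖ ≤ s → ‖Gf h zz α (-(β:ℂ)) 0 y‖ ≤ 2 * Real.pi * Real.exp K := by
    intro y hy
    have hty : ∀ t ∈ Icc (0:ℝ) 1, ‖(t:ℂ) * y‖ ≤ s := by
      intro t ht
      rw [norm_mul, Complex.norm_real, Real.norm_of_nonneg ht.1]
      nlinarith [ht.1, ht.2, norm_nonneg y]
    have hder : ∀ t ∈ Icc (0:ℝ) 1, HasDerivAt (fun t : ℝ => Gf h zz α (-(β:ℂ)) 0 ((t:ℂ) * y))
        ((-(β:ℂ) * Gf (fun τ => h τ * zz τ) zz α (-(β:ℂ) - 1) 0 ((t:ℂ) * y)) * (1 * y)) t := by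
      intro t ht
      have h1 : HasDerivAt (fun s : ℝ => (s:ℂ) * y) (1 * y) t := by
        apply HasDerivAt.mul_const
        exact Complex.ofRealCLM.hasDerivAt
      exact (Gf_deriv_y hφc hcmc hzz' α (-(β:ℂ)) (mem_ball_self hρ0)
        (hm (by linarith [hty t ht]))).comp_of_eq t h1 rfl
    have := norm_le_gronwallBound_of_norm_deriv_right_le (a := 0) (b := 1)
      (f := fun t : ℝ => Gf h zz α (-(β:ℂ)) 0 ((t:ℂ) * y)) (δ := 2 * Real.pi) (K := K) (ε := 0)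
      (fun t ht => (hder t ht).continuousAt.continuousWithinAt)
      (fun t ht => (hder t (Ico_subset_Icc_self ht)).hasDerivWithinAt)
      (by simp [h00])
      (by
        intro t ht
        rw [norm_mul, add_zero, one_mul]
        have h1 := hq _ (hty t (Ico_subset_Icc_self ht))
        have h2 : ‖y‖ ≤ 1 := by linarith
        have h3 := mul_le_mul h1 h2 (norm_nonneg _) (by positivity)
        rwa [mul_one] at h3)
      1 ⟨by norm_num, le_rfl⟩
    rw [gronwallBound_ε0] at this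
    simpa using this
  have hcau := Complex.norm_iteratedDeriv_le_of_forall_mem_sphere_norm_le
    (f := fun y => Gf h zz α (-(β:ℂ)) 0 y) (c := 0) (R := s) (C := 2 * Real.pi * Real.exp K) n hs0
    (by
      apply DifferentiableOn.diffContOnCl
      rw [closure_ball _ hs0.ne']
      intro z hz
      have : ‖z‖ ≤ s := by simpa using hz
      exact (Gf_deriv_y hφc hcmc hzz' α (-(β:ℂ)) (mem_ball_self hρ0)
        (hm (by linarith))).differentiableAt.differentiableWithinAt)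
    (fun z hz => hgr z (by simpa using (sphere_subset_closedBall hz)))
  rw [iter_Gf hcmc hzz' hρ0 _ n h hφc, hcoef n, norm_mul, norm_mul] at hcau
  have h2pi : ‖(2 * Real.pi : ℂ)‖ = 2 * Real.pi := by
    simp [abs_of_pos Real.pi_pos]
  rw [h2pi] at hcau
  have h1 := fact_le_prod hβ n
  have hf0 : (0:ℝ) < n.factorial := by exact_mod_cast n.factorial_pos
  have h2 : (n.factorial : ℝ) * (2 * Real.pi * ‖taylorCoeff φ n‖) ≤
      n.factorial * (2 * Real.pi * Real.exp K) / s ^ n :=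
    (mul_le_mul_of_nonneg_right h1 (by positivity)).trans hcau
  have h3 : (n.factorial : ℝ) * (2 * Real.pi * Real.exp K) / s ^ n =
      (n.factorial * (2 * Real.pi)) * (Real.exp K / s ^ n) := by ring
  rw [h3, ← mul_assoc] at h2
  exact le_of_mul_le_mul_left h2 (by positivity)

theorem normal {α β : ℝ} (hα : 1 ≤ α) (hβ : 1 ≤ β) (φ : ℕ → ℂ → ℂ) (hφ : ∀ k, φ k ∈ classT α β) :
    ∃ (σ : ℕ → ℕ) (f : ℂ → ℂ), StrictMono σ ∧
      TendstoLocallyUniformlyOn (fun k => φ (σ k)) f atTop (ball 0 1) := by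
  obtain ⟨C0, hC0⟩ := coeff_bound hα hβ (s := 1 / 2) (by norm_num) (by norm_num)
  have hcomp : IsCompact (Set.pi univ (fun n : ℕ => closedBall (0:ℂ) (C0 / (1 / 2) ^ n))) :=
    isCompact_univ_pi (fun n => isCompact_closedBall _ _)
  obtain ⟨c, -, σ, hσ, hlim⟩ := hcomp.tendsto_subseq (x := fun k n => taylorCoeff (φ k) n)
    (fun k n _ => by simpa using hC0 (φ k) (hφ k) n)
  have hlimn : ∀ n, Tendsto (fun k => taylorCoeff (φ (σ k)) n) atTop (𝓝 (c n)) :=
    fun n => (continuous_apply n).continuousAt.tendsto.comp hlim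
  refine ⟨σ, fun z => ∑' n, c n * z ^ n, hσ, ?_⟩
  rw [tendstoLocallyUniformlyOn_iff_forall_isCompact isOpen_ball]
  intro K hK hKc
  rcases K.eq_empty_or_nonempty with hKe | hKne
  · rw [hKe]; exact tendstoUniformlyOn_empty
  obtain ⟨z0, hz0, hmax⟩ := hKc.exists_isMaxOn hKne (f := fun z : ℂ => ‖z‖) (by fun_prop)
  have hz01 : ‖z0‖ < 1 := by simpa using hK hz0
  obtain ⟨r, hr0, hr1⟩ := exists_between hz01
  obtain ⟨s, hrs, hs1⟩ := exists_between hr1
  have hr : 0 < r := lt_of_le_of_lt (norm_nonneg _) hr0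
  have hs : 0 < s := by linarith
  obtain ⟨C, hC⟩ := coeff_bound hα hβ hs hs1
  have hCc : ∀ n, ‖c n‖ ≤ C / s ^ n := fun n =>
    le_of_tendsto' (hlimn n).norm (fun k => hC _ (hφ _) n)
  have hgeo : Summable (fun n : ℕ => 2 * C * (r / s) ^ n) :=
    (summable_geometric_of_lt_one (by positivity) ((div_lt_one hs).2 hrs)).mul_left _
  have hbd : ∀ k n, ‖taylorCoeff (φ (σ k)) n - c n‖ * r ^ n ≤ 2 * C * (r / s) ^ n := by
    intro k n
    have h1 := norm_sub_le (taylorCoeff (φ (σ k)) n) (c n)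
    have h2 := hC _ (hφ (σ k)) n
    have h3 := hCc n
    have h4 : ‖taylorCoeff (φ (σ k)) n - c n‖ ≤ 2 * (C / s ^ n) := by linarith
    calc ‖taylorCoeff (φ (σ k)) n - c n‖ * r ^ n ≤ 2 * (C / s ^ n) * r ^ n :=
          mul_le_mul_of_nonneg_right h4 (by positivity)
      _ = 2 * C * (r / s) ^ n := by rw [div_pow]; ring
  have htan := tendsto_tsum_of_dominated_convergence (𝓕 := atTop)
    (f := fun k n => ‖taylorCoeff (φ (σ k)) n - c n‖ * r ^ n) (g := fun _ => (0:ℝ)) hgeo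
    (fun n => by
      have := ((hlimn n).sub_const (c n)).norm.mul_const (r ^ n)
      simpa using this)
    (Filter.Eventually.of_forall (fun k n => by
      rw [Real.norm_of_nonneg (by positivity)]
      exact hbd k n))
  rw [tsum_zero] at htan
  rw [Metric.tendstoUniformlyOn_iff]
  intro ε hε
  filter_upwards [htan.eventually (gt_mem_nhds hε)] with k hk z hz
  have hzr : ‖z‖ ≤ r := le_trans (hmax hz) hr0.le
  have hsum1 : HasSum (fun n => taylorCoeff (φ (σ k)) n * z ^ n) (φ (σ k) z) := by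
    have := Complex.hasSum_taylorSeries_on_ball (hφ (σ k)).1 (hK hz)
    have e : (fun n : ℕ => taylorCoeff (φ (σ k)) n * z ^ n) =
        fun n : ℕ => (n.factorial : ℂ)⁻¹ • (z - 0) ^ n • iteratedDeriv n (φ (σ k)) 0 := by
      funext n
      simp only [taylorCoeff, sub_zero, smul_eq_mul]
      ring
    rw [e]
    exact this
  have hsum2 : Summable (fun n => c n * z ^ n) := by
    refine Summable.of_norm_bounded
      ((summable_geometric_of_lt_one (by positivity) ((div_lt_one hs).2 hrs)).mul_left C) ?_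
    intro n
    rw [norm_mul, norm_pow]
    calc ‖c n‖ * ‖z‖ ^ n ≤ C / s ^ n * r ^ n :=
          mul_le_mul (hCc n) (pow_le_pow_left₀ (norm_nonneg _) hzr n) (by positivity)
            ((norm_nonneg _).trans (hCc n))
      _ = C * (r / s) ^ n := by rw [div_pow]; ring
  have hsum3 := hsum1.sub hsum2.hasSum
  have hsum4 : Summable (fun n => ‖taylorCoeff (φ (σ k)) n - c n‖ * r ^ n) :=
    Summable.of_nonneg_of_le (fun n => by positivity) (hbd k) hgeo
  rw [dist_comm, dist_eq_norm]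
  refine lt_of_le_of_lt (hsum3.norm_le_of_bounded hsum4.hasSum ?_) hk
  intro n
  rw [← sub_mul, norm_mul, norm_pow]
  exact mul_le_mul_of_nonneg_left (pow_le_pow_left₀ (norm_nonneg _) hzr n) (norm_nonneg _)

end Pool.Agent.H837Z.Normal
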